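import Pool.Agent.J4.H34.PST.Inf

/-!
# MP_c481b3_nt: Sato-Tate for almost all products of elliptic curves

`S` is a finite set of elliptic curves over `ℚ` (or newforms), given by their angles `θ e p` at the
primes `p`, such that the Sato-Tate law holds for any two different members (`Family`). This is a
theorem for elliptic curves without complex multiplication which are pairwise not isogenous over `ℚ̄`.
For products of three curves, and for one curve over a general number field, the law is open.

(1) At every large height `x`, all but `C |S|^g` of the `|S|^(g+1)` products of `g + 1` curves satisfy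
the Sato-Tate law over `K` up to `ε`, jointly with and independently of arbitrary data `y v` in a compact
space `Y` at the primes `v` of `K` (for instance the Frobenius classes of an arbitrary abelian variety
over `K`), for all test functions `f` of an equicontinuous family at once (for instance all
1-Lipschitz functions). `C` depends on `ε`, the family of test functions and the degree of `K` only.

(2) A version with an exceptional set which does not depend on the height: along any sequence
`h k → ∞` of heights (for instance `h k = k` or `h k = 2 ^ k`), outside of `C |S|^g / κ` products the law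
holds up to `ε` at the heights `h k` for a set of the `k` of upper density `≥ 1 - κ`.

(3) If `J` is infinite and any two members satisfy the Sato-Tate law, then for arbitrary data `y`, all but
`C / κ` members satisfy the law over `K` jointly with and independently of `y` in the sense of (2).

(4) Open sets of `[0, π]^(g+1)` are visited with the right frequency by the primes of an arbitrary set `V`
of primes of `K`.

(5) Bessel's inequality: the correlations of a bounded function `w` of the primes of `K` with an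
orthonormal system of functions of the angles (for instance the characters of `SU(2)`), for all curves.

(6) Every product: the exact mean square of the sum of a function over all factors.
-/

set_option autoImplicit false

namespace Pool.Agent.Results.MP_c481b3_nt.AlmostAllProducts

open Pool.Agent.J4.H34.PST
open MeasureTheory Filter Topology NumberField

theorem result :
    -- (0) the angles of elliptic curves are in `[0, π]`
    (∀ (e : ℤ × ℤ) (p : ℕ), angle e p ∈ Set.Icc 0 Real.pi) ∧
    -- (1) almost all products, at every large height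
    (∀ (g : ℕ) (Y : Type) [TopologicalSpace Y] [CompactSpace Y]
      (F : Set (Y × (Fin (g + 1) → ℝ) → ℝ)),
      Equicontinuous ((↑) : F → Y × (Fin (g + 1) → ℝ) → ℝ) → ∀ (D : ℕ) (ε : ℝ), 0 < ε →
      ∃ C : ℕ, ∀ (K : Type) [Field K] [NumberField K], Module.finrank ℚ K ≤ D →
        ∀ (J : Type) (θ : J → ℕ → ℝ) (S : Finset J), Family θ S → ∃ x₀ : ℕ, ∀ x ≥ x₀,
        ∀ y : (p : ℕ) → (𝓞 K →+* ZMod p) → Y,
        ∃ T : Finset (Fin (g + 1) → J), T.card ≤ C * S.card ^ g ∧
          ∀ j : Fin (g + 1) → J, (∀ i, j i ∈ S) → j ∉ T → ∀ f ∈ F,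
            |meanK K x (fun p v => f (y p v, fun i => θ (j i) p))
              - meanK K x (fun p v => ∫ t, f (y p v, t) ∂(stPi (g + 1)))| ≤ ε) ∧
    -- (2) almost all products, at many heights
    (∀ (g : ℕ) (Y : Type) [TopologicalSpace Y] [CompactSpace Y]
      (F : Set (Y × (Fin (g + 1) → ℝ) → ℝ)),
      Equicontinuous ((↑) : F → Y × (Fin (g + 1) → ℝ) → ℝ) → ∀ (D : ℕ) (ε : ℝ), 0 < ε →
      ∃ C : ℕ, ∀ (K : Type) [Field K] [NumberField K], Module.finrank ℚ K ≤ D →
        ∀ (J : Type) (θ : J → ℕ → ℝ) (S : Finset J), Family θ S →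
        ∀ y : (p : ℕ) → (𝓞 K →+* ZMod p) → Y,
        ∀ h : ℕ → ℕ, Tendsto h atTop atTop → ∀ κ : ℝ, 0 < κ →
        ∃ T : Finset (Fin (g + 1) → J), (T.card : ℝ) * κ ≤ C * S.card ^ g ∧
          ∀ j : Fin (g + 1) → J, (∀ i, j i ∈ S) → j ∉ T → Often κ fun k => ∀ f ∈ F,
            |meanK K (h k) (fun p v => f (y p v, fun i => θ (j i) p))
              - meanK K (h k) (fun p v => ∫ t, f (y p v, t) ∂(stPi (g + 1)))| ≤ ε) ∧
    -- (3) almost all members of an infinite family, at many heights
    (∀ (Y : Type) [TopologicalSpace Y] [CompactSpace Y] (F : Set (Y × ℝ → ℝ)),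
      Equicontinuous ((↑) : F → Y × ℝ → ℝ) → ∀ (D : ℕ) (ε : ℝ), 0 < ε →
      ∃ C : ℕ, ∀ (K : Type) [Field K] [NumberField K], Module.finrank ℚ K ≤ D →
        ∀ (J : Type) (θ : J → ℕ → ℝ), (∀ S : Finset J, Family θ S) →
        ∀ y : (p : ℕ) → (𝓞 K →+* ZMod p) → Y,
        ∀ h : ℕ → ℕ, Tendsto h atTop atTop → ∀ κ : ℝ, 0 < κ →
        ∃ T : Finset J, (T.card : ℝ) * κ ≤ C ∧
          ∀ e ∉ T, Often κ fun k => ∀ f ∈ F,
            |meanK K (h k) (fun p v => f (y p v, θ e p))
              - meanK K (h k) (fun p v => ∫ t, f (y p v, t) ∂st)| ≤ ε) ∧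
    -- (4) open sets of angles and arbitrary sets of primes
    (∀ (g : ℕ) (U : Set (Fin (g + 1) → ℝ)), IsOpen U → ∀ (D : ℕ) (ε : ℝ), 0 < ε →
      ∃ C : ℕ, ∀ (K : Type) [Field K] [NumberField K], Module.finrank ℚ K ≤ D →
        ∀ (J : Type) (θ : J → ℕ → ℝ) (S : Finset J), Family θ S →
        ∀ V : (p : ℕ) → Set (𝓞 K →+* ZMod p),
        ∀ h : ℕ → ℕ, Tendsto h atTop atTop → ∀ κ : ℝ, 0 < κ →
        ∃ T : Finset (Fin (g + 1) → J), (T.card : ℝ) * κ ≤ C * S.card ^ g ∧
          ∀ j : Fin (g + 1) → J, (∀ i, j i ∈ S) → j ∉ T → Often κ fun k =>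
            (stPi (g + 1)).real U * propK K (h k) V - ε ≤
              propK K (h k) fun p => {v ∈ V p | (fun i => θ (j i) p) ∈ U}) ∧
    -- (5) Bessel's inequality
    (∀ (K : Type) [Field K] [NumberField K] (J : Type) (θ : J → ℕ → ℝ) (S : Finset J),
      Family θ S → 2 ≤ S.card → ∀ (n : ℕ) (φ : Fin n → ℝ → ℝ), (∀ a, Continuous (φ a)) →
      (∀ a, ∫ t, φ a t ∂st = 0) → (∀ a b, ∫ t, φ a t * φ b t ∂st = if a = b then 1 else 0) →
      ∀ d ε : ℝ, 0 < ε → ∃ x₀ : ℕ, ∀ x ≥ x₀,
      ∀ w : (p : ℕ) → (𝓞 K →+* ZMod p) → ℝ, (∀ p v, |w p v| ≤ d) →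
        ∑ e ∈ S, ∑ a, meanK K x (fun p v => w p v * φ a (θ e p)) ^ 2 ≤
          Module.finrank ℚ K * meanK K x (fun p v => w p v ^ 2) + ε) ∧
    -- (6) the product of all members of `S`
    (∀ (J : Type) (θ : J → ℕ → ℝ) (S : Finset J), Family θ S → 2 ≤ S.card →
      ∀ φ : ℝ → ℝ, Continuous φ →
      Tendsto (fun x => avg x fun p => ((∑ e ∈ S, φ (θ e p)) / S.card - ∫ t, φ t ∂st) ^ 2)
        atTop (𝓝 ((∫ t, φ t ^ 2 ∂st - (∫ t, φ t ∂st) ^ 2) / S.card))) := by
  refine ⟨angle_mem, ?_, ?_, ?_, ?_, ?_, ?_⟩
  · intro g Y _ _ F hF D ε hε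
    exact six g Y F hF D hε
  · intro g Y _ _ F hF D ε hε
    exact seven g Y F hF D hε
  · intro Y _ _ F hF D ε hε
    exact nine Y F hF D hε
  · intro g U hU D ε hε
    exact five g U hU D hε
  · intro K _ _ J θ S hS hcard n φ hφ h0 h1 d ε hε
    exact eight K θ S hS hcard φ hφ h0 h1 d ε hε
  · intro J θ S hS hcard φ hφ
    exact variance θ S hS hcard φ hφ

end Pool.Agent.Results.MP_c481b3_nt.AlmostAllProducts
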