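import Pool.Agent.J4.H34.PST.Defs

set_option autoImplicit false

namespace Pool.Agent.J4.H34.PST

open MeasureTheory Filter Topology
open Pool.Agent.W263.BSD

/-- the primes up to `x` -/
noncomputable abbrev pr (x : ℕ) : Finset ℕ := (Finset.range (x + 1)).filter Nat.Prime

lemma avg_def (x : ℕ) (φ : ℕ → ℝ) : avg x φ = (∑ p ∈ pr x, φ p) / (pr x).card := rfl

lemma avg_add (x : ℕ) (φ ψ : ℕ → ℝ) : avg x (fun p => φ p + ψ p) = avg x φ + avg x ψ := by
  simp only [avg_def, Finset.sum_add_distrib, add_div]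

lemma avg_sub (x : ℕ) (φ ψ : ℕ → ℝ) : avg x (fun p => φ p - ψ p) = avg x φ - avg x ψ := by
  simp only [avg_def, Finset.sum_sub_distrib, sub_div]

lemma avg_mul_left (x : ℕ) (c : ℝ) (φ : ℕ → ℝ) : avg x (fun p => c * φ p) = c * avg x φ := by
  simp only [avg_def, ← Finset.mul_sum, mul_div_assoc]

lemma avg_mul_right (x : ℕ) (c : ℝ) (φ : ℕ → ℝ) : avg x (fun p => φ p * c) = avg x φ * c := by
  simp only [avg_def, ← Finset.sum_mul]
  ring

lemma avg_sum {ι : Type*} (x : ℕ) (S : Finset ι) (φ : ι → ℕ → ℝ) :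
    avg x (fun p => ∑ i ∈ S, φ i p) = ∑ i ∈ S, avg x (φ i) := by
  simp only [avg_def]
  rw [Finset.sum_comm, Finset.sum_div]

lemma avg_mono (x : ℕ) {φ ψ : ℕ → ℝ} (h : ∀ p, φ p ≤ ψ p) : avg x φ ≤ avg x ψ := by
  rw [avg_def, avg_def]
  exact div_le_div_of_nonneg_right (Finset.sum_le_sum fun p _ => h p) (by positivity)

lemma avg_nonneg (x : ℕ) {φ : ℕ → ℝ} (h : ∀ p, 0 ≤ φ p) : 0 ≤ avg x φ := by
  rw [avg_def]
  exact div_nonneg (Finset.sum_nonneg fun p _ => h p) (by positivity)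

lemma avg_const_le (x : ℕ) {c : ℝ} (hc : 0 ≤ c) : avg x (fun _ => c) ≤ c := by
  rw [avg_def, Finset.sum_const, nsmul_eq_mul]
  rcases Nat.eq_zero_or_pos (pr x).card with h | h
  · rw [h]; simpa using hc
  · have : ((pr x).card : ℝ) ≠ 0 := by positivity
    rw [mul_div_cancel_left₀ _ this]

lemma avg_const {x : ℕ} (hx : 2 ≤ x) (c : ℝ) : avg x (fun _ => c) = c := by
  rw [avg_def, Finset.sum_const, nsmul_eq_mul]
  have h : 0 < (pr x).card := Finset.card_pos.2 ⟨2, by
    rw [Finset.mem_filter, Finset.mem_range]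
    exact ⟨by omega, Nat.prime_two⟩⟩
  have : ((pr x).card : ℝ) ≠ 0 := by positivity
  rw [mul_div_cancel_left₀ _ this]

lemma avg_le_of_le (x : ℕ) {φ : ℕ → ℝ} {c : ℝ} (hc : 0 ≤ c) (h : ∀ p, φ p ≤ c) : avg x φ ≤ c :=
  (avg_mono x h).trans (avg_const_le x hc)

lemma abs_avg_le (x : ℕ) {φ : ℕ → ℝ} {c : ℝ} (hc : 0 ≤ c) (h : ∀ p, |φ p| ≤ c) :
    |avg x φ| ≤ c := by
  rw [abs_le]
  constructor
  · have h1 : avg x (fun p => - φ p) ≤ c := avg_le_of_le x hc fun p => by
      have := (abs_le.1 (h p)).1; linarith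
    have h2 : avg x (fun p => - φ p) = - avg x φ := by
      have := avg_mul_left x (-1) φ
      simpa using this
    linarith
  · exact avg_le_of_le x hc fun p => (abs_le.1 (h p)).2

lemma avg_sq (x : ℕ) (φ ψ : ℕ → ℝ) :
    avg x (fun p => φ p * ψ p) ^ 2 ≤ avg x (fun p => φ p ^ 2) * avg x (fun p => ψ p ^ 2) := by
  simp only [avg_def]
  rw [div_pow, div_mul_div_comm, ← sq]
  exact div_le_div_of_nonneg_right (Finset.sum_mul_sq_le_sq_mul_sq _ _ _) (by positivity)

/-- Bessel's inequality for almost orthogonal functions -/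
lemma bessel {ι : Type*} [DecidableEq ι] (x : ℕ) (S : Finset ι) (v : ι → ℕ → ℝ) (F : ℕ → ℝ)
    {M η : ℝ} (hM : 0 ≤ M) (hη : 0 ≤ η) (hF : ∀ p, |F p| ≤ M) (hv : ∀ i ∈ S, ∀ p, |v i p| ≤ 1)
    (hij : ∀ i ∈ S, ∀ j ∈ S, i ≠ j → |avg x (fun p => v i p * v j p)| ≤ η) :
    ∑ j ∈ S, avg x (fun p => F p * v j p) ^ 2 ≤ M ^ 2 * (1 + η * S.card) := by
  set c : ι → ℝ := fun j => avg x (fun p => F p * v j p) with hc
  set Q : ℝ := ∑ j ∈ S, c j ^ 2 with hQ
  have hQ0 : 0 ≤ Q := Finset.sum_nonneg fun _ _ => sq_nonneg _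
  have h1 : Q = avg x (fun p => F p * ∑ j ∈ S, c j * v j p) := by
    have : (fun p => F p * ∑ j ∈ S, c j * v j p) = fun p => ∑ j ∈ S, c j * (F p * v j p) := by
      funext p
      rw [Finset.mul_sum]
      exact Finset.sum_congr rfl fun j _ => by ring
    rw [this, avg_sum]
    apply Finset.sum_congr rfl
    intro j _
    rw [avg_mul_left, sq]
  have h2 : avg x (fun p => F p ^ 2) ≤ M ^ 2 := by
    apply avg_le_of_le x (by positivity)
    intro p
    rw [← sq_abs]
    exact pow_le_pow_left₀ (abs_nonneg _) (hF p) 2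
  have h3 : avg x (fun p => (∑ j ∈ S, c j * v j p) ^ 2) ≤ (1 + η * S.card) * Q := by
    have e1 : (fun p => (∑ j ∈ S, c j * v j p) ^ 2)
        = fun p => ∑ i ∈ S, ∑ j ∈ S, c i * c j * (v i p * v j p) := by
      funext p
      rw [sq, Finset.sum_mul_sum]
      apply Finset.sum_congr rfl
      intro i _
      exact Finset.sum_congr rfl fun j _ => by ring
    rw [e1, avg_sum]
    have e2 : ∀ i ∈ S, avg x (fun p => ∑ j ∈ S, c i * c j * (v i p * v j p))
        ≤ c i ^ 2 + ∑ j ∈ S, η * (|c i| * |c j|) := by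
      intro i hi
      rw [avg_sum, ← Finset.add_sum_erase S _ hi]
      apply add_le_add
      · rw [avg_mul_left, ← sq]
        have : avg x (fun p => v i p * v i p) ≤ 1 := by
          apply avg_le_of_le x zero_le_one
          intro p
          rw [← sq, ← sq_abs]
          exact pow_le_one₀ (abs_nonneg _) (hv i hi p)
        nlinarith [sq_nonneg (c i)]
      · calc ∑ j ∈ S.erase i, avg x (fun p => c i * c j * (v i p * v j p))
            ≤ ∑ j ∈ S.erase i, η * (|c i| * |c j|) := by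
              apply Finset.sum_le_sum
              intro j hj
              rw [Finset.mem_erase] at hj
              rw [avg_mul_left]
              refine (le_abs_self _).trans ?_
              rw [abs_mul, abs_mul, mul_comm η]
              exact mul_le_mul_of_nonneg_left (hij i hi j hj.2 (Ne.symm hj.1)) (by positivity)
          _ ≤ ∑ j ∈ S, η * (|c i| * |c j|) := by
              apply Finset.sum_le_sum_of_subset_of_nonneg (Finset.erase_subset _ _)
              intro j _ _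
              positivity
    refine (Finset.sum_le_sum e2).trans ?_
    rw [Finset.sum_add_distrib]
    have e3 : ∑ i ∈ S, ∑ j ∈ S, η * (|c i| * |c j|) = η * (∑ i ∈ S, |c i|) ^ 2 := by
      rw [sq, Finset.sum_mul_sum, Finset.mul_sum]
      exact Finset.sum_congr rfl fun i _ => by rw [Finset.mul_sum]
    have e4 : (∑ i ∈ S, |c i|) ^ 2 ≤ S.card * Q := by
      have := sq_sum_le_card_mul_sum_sq (s := S) (f := fun i => |c i|)
      simpa only [sq_abs] using this
    rw [e3]
    nlinarith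
  have h4 : Q ^ 2 ≤ M ^ 2 * ((1 + η * S.card) * Q) := by
    calc Q ^ 2 = avg x (fun p => F p * ∑ j ∈ S, c j * v j p) ^ 2 := by rw [← h1]
      _ ≤ avg x (fun p => F p ^ 2) * avg x (fun p => (∑ j ∈ S, c j * v j p) ^ 2) := avg_sq _ _ _
      _ ≤ M ^ 2 * ((1 + η * S.card) * Q) :=
          mul_le_mul h2 h3 (avg_nonneg x fun p => sq_nonneg _) (by positivity)
  rcases hQ0.eq_or_lt with h0 | h0
  · rw [← h0]; positivity
  · have : Q * Q ≤ (M ^ 2 * (1 + η * S.card)) * Q := by nlinarith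
    exact le_of_mul_le_mul_right this h0

end Pool.Agent.J4.H34.PST
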