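import Pool.Agent.J4.H34.PST.Data

set_option autoImplicit false

namespace Pool.Agent.J4.H34.PST

open MeasureTheory Filter Topology NumberField

/-- Bessel's inequality for almost orthonormal functions -/
lemma bessel' {ι : Type*} [DecidableEq ι] (x : ℕ) (S : Finset ι) (v : ι → ℕ → ℝ) (F : ℕ → ℝ)
    {η : ℝ} (hη : 0 ≤ η)
    (hij : ∀ i ∈ S, ∀ j ∈ S, |avg x (fun p => v i p * v j p) - if i = j then 1 else 0| ≤ η) :
    ∑ j ∈ S, avg x (fun p => F p * v j p) ^ 2 ≤ avg x (fun p => F p ^ 2) * (1 + η * S.card) := by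
  set c : ι → ℝ := fun j => avg x (fun p => F p * v j p) with hc
  set Q : ℝ := ∑ j ∈ S, c j ^ 2 with hQ
  have hQ0 : 0 ≤ Q := Finset.sum_nonneg fun _ _ => sq_nonneg _
  have hF0 : 0 ≤ avg x (fun p => F p ^ 2) := avg_nonneg x fun p => sq_nonneg _
  have h1 : Q = avg x (fun p => F p * ∑ j ∈ S, c j * v j p) := by
    have : (fun p => F p * ∑ j ∈ S, c j * v j p) = fun p => ∑ j ∈ S, c j * (F p * v j p) := by
      funext p
      rw [Finset.mul_sum]
      exact Finset.sum_congr rfl fun j _ => by ring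
    rw [this, avg_sum]
    apply Finset.sum_congr rfl
    intro j _
    rw [avg_mul_left, sq]
  have h3 : avg x (fun p => (∑ j ∈ S, c j * v j p) ^ 2) ≤ (1 + η * S.card) * Q := by
    have e1 : (fun p => (∑ j ∈ S, c j * v j p) ^ 2)
        = fun p => ∑ i ∈ S, ∑ j ∈ S, c i * c j * (v i p * v j p) := by
      funext p
      rw [sq, Finset.sum_mul_sum]
      apply Finset.sum_congr rfl
      intro i _
      exact Finset.sum_congr rfl fun j _ => by ring
    rw [e1, avg_sum]
    have e2 : ∀ i ∈ S, avg x (fun p => ∑ j ∈ S, c i * c j * (v i p * v j p))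
        ≤ c i ^ 2 + ∑ j ∈ S, η * (|c i| * |c j|) := by
      intro i hi
      rw [avg_sum]
      have e3 : c i ^ 2 = ∑ j ∈ S, c i * c j * (if i = j then 1 else 0) := by
        simp only [mul_ite, mul_one, mul_zero]
        rw [Finset.sum_ite_eq, if_pos hi, sq]
      rw [e3, ← Finset.sum_add_distrib]
      apply Finset.sum_le_sum
      intro j hj
      rw [avg_mul_left]
      have h5 : c i * c j * (avg x (fun p => v i p * v j p) - if i = j then 1 else 0)
          ≤ η * (|c i| * |c j|) := by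
        refine (le_abs_self _).trans ?_
        rw [abs_mul, abs_mul, mul_comm η]
        exact mul_le_mul_of_nonneg_left (hij i hi j hj) (by positivity)
      rw [mul_sub] at h5
      linarith
    refine (Finset.sum_le_sum e2).trans ?_
    rw [Finset.sum_add_distrib]
    have e3 : ∑ i ∈ S, ∑ j ∈ S, η * (|c i| * |c j|) = η * (∑ i ∈ S, |c i|) ^ 2 := by
      rw [sq, Finset.sum_mul_sum, Finset.mul_sum]
      exact Finset.sum_congr rfl fun i _ => by rw [Finset.mul_sum]
    have e4 : (∑ i ∈ S, |c i|) ^ 2 ≤ S.card * Q := by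
      have := sq_sum_le_card_mul_sum_sq (s := S) (f := fun i => |c i|)
      simpa only [sq_abs] using this
    rw [e3]
    nlinarith
  have h4 : Q ^ 2 ≤ avg x (fun p => F p ^ 2) * ((1 + η * S.card) * Q) := by
    calc Q ^ 2 = avg x (fun p => F p * ∑ j ∈ S, c j * v j p) ^ 2 := by rw [← h1]
      _ ≤ avg x (fun p => F p ^ 2) * avg x (fun p => (∑ j ∈ S, c j * v j p) ^ 2) := avg_sq _ _ _
      _ ≤ avg x (fun p => F p ^ 2) * ((1 + η * S.card) * Q) :=
          mul_le_mul_of_nonneg_left h3 hF0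
  rcases hQ0.eq_or_lt with h0 | h0
  · rw [← h0]; positivity
  · have : Q * Q ≤ (avg x (fun p => F p ^ 2) * (1 + η * S.card)) * Q := by nlinarith
    exact le_of_mul_le_mul_right this h0

/-- the almost orthonormality -/
lemma gram {J : Type} {θ : J → ℕ → ℝ} {S : Finset J} (hS : Family θ S) (hcard : 2 ≤ S.card)
    {n : ℕ} {φ : Fin n → ℝ → ℝ} (hφ : ∀ a, Continuous (φ a)) (h0 : ∀ a, ∫ t, φ a t ∂st = 0)
    (h1 : ∀ a b, ∫ t, φ a t * φ b t ∂st = if a = b then 1 else 0) [DecidableEq J]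
    (i : J × Fin n) (hi : i ∈ S ×ˢ (Finset.univ : Finset (Fin n)))
    (j : J × Fin n) (hj : j ∈ S ×ˢ (Finset.univ : Finset (Fin n))) :
    Tendsto (fun x => avg x fun p => φ i.2 (θ i.1 p) * φ j.2 (θ j.1 p)) atTop
      (𝓝 (if i = j then 1 else 0)) := by
  obtain ⟨e, a⟩ := i
  obtain ⟨e', b⟩ := j
  rw [Finset.mem_product] at hi hj
  by_cases hee : e = e'
  · subst hee
    obtain ⟨e'', he'', hne⟩ : ∃ e'' ∈ S, e'' ≠ e := by
      have : 0 < (S.erase e).card := by
        rw [Finset.card_erase_of_mem hi.1]; omega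
      obtain ⟨a, ha⟩ := Finset.card_pos.1 this
      rw [Finset.mem_erase] at ha
      exact ⟨a, ha.2, ha.1⟩
    have hφa := hφ a
    have hφb := hφ b
    have h2 := hS.2 e hi.1 e'' he'' hne.symm (fun q => φ a q.1 * φ b q.1) (by fun_prop)
    simp only [integral_const, probReal_univ, one_smul] at h2
    rw [h1 a b] at h2
    simp only [Prod.mk.injEq, true_and]
    exact h2
  · have hφa := hφ a
    have hφb := hφ b
    have h2 := hS.2 e hi.1 e' hj.1 hee (fun q => φ a q.1 * φ b q.2) (by fun_prop)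
    simp only [integral_const_mul, h0, mul_zero, integral_zero] at h2
    rw [if_neg (by simp [hee])]
    exact h2

section

variable {K : Type} [Field K] [NumberField K]

/-- Cauchy-Schwarz for the primes above `p` -/
lemma push_sq (w : (p : ℕ) → (𝓞 K →+* ZMod p) → ℝ) (p : ℕ) :
    push w p ^ 2 ≤ Module.finrank ℚ K * push (fun p v => w p v ^ 2) p := by
  unfold push
  split_ifs with h
  · have : Fact p.Prime := ⟨h⟩
    have := Pool.Agent.H484R2.hom_finite K p
    let _ := Fintype.ofFinite (𝓞 K →+* ZMod p)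
    rw [finsum_eq_sum_of_fintype, finsum_eq_sum_of_fintype]
    have h1 := sq_sum_le_card_mul_sum_sq (s := (Finset.univ : Finset (𝓞 K →+* ZMod p)))
      (f := fun v => w p v)
    refine h1.trans ?_
    apply mul_le_mul_of_nonneg_right _ (Finset.sum_nonneg fun v _ => sq_nonneg _)
    rw [Finset.card_univ, ← Nat.card_eq_fintype_card]
    exact H332.PIT.hc_cast_le h
  · simp

end

/-- part (4): Bessel's inequality -/
theorem eight (K : Type) [Field K] [NumberField K] {J : Type} (θ : J → ℕ → ℝ) (S : Finset J)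
    (hS : Family θ S) (hcard : 2 ≤ S.card)
    {n : ℕ} (φ : Fin n → ℝ → ℝ) (hφ : ∀ a, Continuous (φ a)) (h0 : ∀ a, ∫ t, φ a t ∂st = 0)
    (h1 : ∀ a b, ∫ t, φ a t * φ b t ∂st = if a = b then 1 else 0) (d ε : ℝ) (hε : 0 < ε) :
    ∃ x₀ : ℕ, ∀ x ≥ x₀, ∀ w : (p : ℕ) → (𝓞 K →+* ZMod p) → ℝ, (∀ p v, |w p v| ≤ d) →
      ∑ e ∈ S, ∑ a, meanK K x (fun p v => w p v * φ a (θ e p)) ^ 2 ≤
        Module.finrank ℚ K * meanK K x (fun p v => w p v ^ 2) + ε := by
  classical
  set N : ℝ := ((Module.finrank ℚ K : ℕ) : ℝ) with hN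
  have hN0 : 0 ≤ N := by positivity
  set m : ℕ := (S ×ˢ (Finset.univ : Finset (Fin n))).card with hm
  -- the loss factor tends to one
  obtain ⟨η, hη, hη1⟩ : ∃ η : ℝ, 0 < η ∧ N * d ^ 2 * ((1 + η * m) * (1 + η)) ≤
      N * d ^ 2 + ε := by
    have ht : Tendsto (fun η : ℝ => N * d ^ 2 * ((1 + η * m) * (1 + η))) (𝓝[>] 0)
        (𝓝 (N * d ^ 2 * ((1 + 0 * m) * (1 + 0)))) := by
      have hc : Continuous fun η : ℝ => N * d ^ 2 * ((1 + η * m) * (1 + η)) := by fun_prop
      exact (hc.tendsto 0).mono_left nhdsWithin_le_nhds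
    have h2 := ht.eventually (gt_mem_nhds (show N * d ^ 2 * ((1 + 0 * (m : ℝ)) * (1 + 0)) <
      N * d ^ 2 + ε by linarith))
    obtain ⟨η, h3, h4⟩ := (h2.and self_mem_nhdsWithin).exists
    exact ⟨η, h4, h3.le⟩
  have hg : ∀ᶠ x in atTop, ∀ i ∈ S ×ˢ (Finset.univ : Finset (Fin n)),
      ∀ j ∈ S ×ˢ (Finset.univ : Finset (Fin n)),
      |avg x (fun p => φ i.2 (θ i.1 p) * φ j.2 (θ j.1 p)) - if i = j then 1 else 0| ≤ η := by
    rw [Filter.eventually_all_finset]
    intro i hi
    rw [Filter.eventually_all_finset]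
    intro j hj
    have := gram hS hcard hφ h0 h1 i hi j hj
    rw [Metric.tendsto_atTop] at this
    obtain ⟨M, hM⟩ := this η hη
    filter_upwards [eventually_ge_atTop M] with x hx
    have := hM x hx
    rw [Real.dist_eq] at this
    exact this.le
  have hwt : ∀ᶠ x in atTop, 1 / (1 + η) ≤ avg x (wt K) := by
    have h2 : 1 / (1 + η) < 1 := by
      rw [div_lt_one (by positivity)]
      linarith
    filter_upwards [(avg_wt_tendsto (K := K)).eventually (lt_mem_nhds h2)] with x hx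
    exact hx.le
  obtain ⟨x₀, hx₀⟩ := eventually_atTop.1 (hg.and hwt)
  refine ⟨x₀, fun x hx w hw => ?_⟩
  obtain ⟨h2, h3⟩ := hx₀ x hx
  have hpos : 0 < avg x (wt K) := lt_of_lt_of_le (by positivity) h3
  have h4 := bessel' x (S ×ˢ (Finset.univ : Finset (Fin n))) (fun i p => φ i.2 (θ i.1 p))
    (push w) hη.le h2
  rw [← hm, Finset.sum_product] at h4
  have h5 : avg x (fun p => push w p ^ 2) ≤ N * avg x (push fun p v => w p v ^ 2) := by
    rw [← avg_mul_left]
    exact avg_mono x fun p => push_sq w p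
  set R : ℝ := meanK K x (fun p v => w p v ^ 2) with hR
  have h6 : avg x (push fun p v => w p v ^ 2) = R * avg x (wt K) := by
    rw [hR, meanK_eq]
    field_simp
  have hR0 : 0 ≤ R := by
    rw [← meanK_zero (K := K) x]
    exact meanK_mono x fun p v => sq_nonneg _
  have hRd : R ≤ d ^ 2 := by
    refine le_trans (meanK_mono (K := K) x (w' := fun _ _ => 1 * d ^ 2) fun p v => ?_) ?_
    · rw [one_mul, ← sq_abs]
      exact pow_le_pow_left₀ (abs_nonneg _) (hw p v) 2
    · rw [meanK_mul]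
      exact mul_le_of_le_one_left (sq_nonneg _) (meanK_one_le x)
  have h7 : ∀ e a, meanK K x (fun p v => w p v * φ a (θ e p)) ^ 2 =
      avg x (fun p => push w p * φ a (θ e p)) ^ 2 / avg x (wt K) ^ 2 := by
    intro e a
    rw [meanK_eq, div_pow]
    congr 3
    funext p
    exact push_mul w (fun p => φ a (θ e p)) p
  simp only [h7, ← Finset.sum_div]
  rw [div_le_iff₀ (by positivity)]
  refine h4.trans ?_
  have h8 : avg x (fun p => push w p ^ 2) * (1 + η * m) ≤ N * (R * avg x (wt K)) * (1 + η * m) := by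
    apply mul_le_mul_of_nonneg_right _ (by positivity)
    rw [← h6]
    exact h5
  refine h8.trans ?_
  -- `1 ≤ (1 + η) avg wt`
  have h9 : 1 ≤ (1 + η) * avg x (wt K) := by
    rw [div_le_iff₀ (by positivity)] at h3
    linarith
  have h10 : N * (R * avg x (wt K)) * (1 + η * m) ≤
      N * R * ((1 + η * m) * (1 + η)) * avg x (wt K) ^ 2 := by
    have h11 : 0 ≤ N * R * (1 + η * m) * avg x (wt K) := by positivity
    have := mul_le_mul_of_nonneg_left h9 h11
    nlinarith
  refine h10.trans ?_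
  apply mul_le_mul_of_nonneg_right _ (by positivity)
  -- `N R ((1 + η m)(1 + η) - 1) ≤ N d² (...) ≤ ε`
  have h12 : 0 ≤ (1 + η * (m : ℝ)) * (1 + η) - 1 := by
    have : 0 ≤ η * (m : ℝ) := by positivity
    nlinarith
  have h13 : N * R * ((1 + η * m) * (1 + η) - 1) ≤ N * d ^ 2 * ((1 + η * m) * (1 + η) - 1) := by
    apply mul_le_mul_of_nonneg_right _ h12
    exact mul_le_mul_of_nonneg_left hRd hN0
  nlinarith

end Pool.Agent.J4.H34.PST
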