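import Pool.Agent.J4.H34.PST.Four

set_option autoImplicit false

namespace Pool.Agent.J4.H34.PST

open MeasureTheory Filter Topology NumberField

section

variable {K : Type} [Field K] [NumberField K]

lemma meanK_sub (x : ℕ) (u u' : (p : ℕ) → (𝓞 K →+* ZMod p) → ℝ) :
    meanK K x (fun p v => u p v - u' p v) = meanK K x u - meanK K x u' := by
  unfold meanK
  rw [← sub_div, ← Finset.sum_sub_distrib]
  congr 1
  refine Finset.sum_congr rfl fun p hp => ?_
  have : Fact p.Prime := ⟨(Finset.mem_filter.1 hp).2⟩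
  have := Pool.Agent.H484R2.hom_finite K p
  let _ := Fintype.ofFinite (𝓞 K →+* ZMod p)
  simp only [finsum_eq_sum_of_fintype, Finset.sum_sub_distrib]

lemma meanK_sum {ι : Type} (x : ℕ) (s : Finset ι) (u : ι → (p : ℕ) → (𝓞 K →+* ZMod p) → ℝ) :
    meanK K x (fun p v => ∑ i ∈ s, u i p v) = ∑ i ∈ s, meanK K x (u i) := by
  unfold meanK
  rw [← Finset.sum_div]
  congr 1
  rw [Finset.sum_comm]
  refine Finset.sum_congr rfl fun p hp => ?_
  have : Fact p.Prime := ⟨(Finset.mem_filter.1 hp).2⟩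
  have := Pool.Agent.H484R2.hom_finite K p
  let _ := Fintype.ofFinite (𝓞 K →+* ZMod p)
  simp only [finsum_eq_sum_of_fintype]
  exact Finset.sum_comm

lemma meanK_mul (x : ℕ) (u : (p : ℕ) → (𝓞 K →+* ZMod p) → ℝ) (c : ℝ) :
    meanK K x (fun p v => u p v * c) = meanK K x u * c := by
  unfold meanK
  rw [div_mul_eq_mul_div, Finset.sum_mul]
  congr 1
  refine Finset.sum_congr rfl fun p _ => ?_
  rw [finsum_mul]

lemma meanK_abs_le (x : ℕ) {u : (p : ℕ) → (𝓞 K →+* ZMod p) → ℝ} {c : ℝ} (hc : 0 ≤ c)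
    (hu : ∀ p v, |u p v| ≤ c) : |meanK K x u| ≤ c := by
  have h1 : meanK K x (fun _ _ => c) ≤ c := by
    have h2 := meanK_mul (K := K) x (fun _ _ => 1) c
    simp only [one_mul] at h2
    rw [h2]
    exact mul_le_of_le_one_left hc (meanK_one_le x)
  have h3 : meanK K x (fun _ _ => -c) = -meanK K x (fun _ _ => c) := by
    have h4 := meanK_mul (K := K) x (fun _ _ => c) (-1)
    simp only [mul_neg, mul_one] at h4
    exact h4
  rw [abs_le]
  constructor
  · have := meanK_mono (K := K) x (w := fun _ _ => -c) (w' := u) fun p v => (abs_le.1 (hu p v)).1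
    rw [h3] at this
    linarith
  · exact (meanK_mono (K := K) x fun p v => (abs_le.1 (hu p v)).2).trans h1

end

section

variable {Y : Type} [TopologicalSpace Y] {n : ℕ}

/-- the sections of an equicontinuous family are close for close parameters -/
lemma near {F : Set (Y × (Fin n → ℝ) → ℝ)}
    (hF : Equicontinuous ((↑) : F → Y × (Fin n → ℝ) → ℝ)) (y₀ : Y) {ε : ℝ} (hε : 0 < ε) :
    ∀ᶠ y in 𝓝 y₀, ∀ t ∈ (Set.univ.pi fun _ : Fin n => Set.Icc (0 : ℝ) Real.pi), ∀ f ∈ F,
      |f (y, t) - f (y₀, t)| ≤ ε := by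
  have hc : IsCompact (Set.univ.pi fun _ : Fin n => Set.Icc (0 : ℝ) Real.pi) :=
    isCompact_univ_pi fun _ => isCompact_Icc
  apply hc.eventually_forall_of_forall_eventually
  intro t _
  have h := Metric.equicontinuousAt_iff_right.1 (hF (y₀, t)) (ε / 2) (by positivity)
  have hcont : ContinuousAt (fun z : Y × (Fin n → ℝ) => (y₀, z.2)) (y₀, t) :=
    (continuous_const.prodMk continuous_snd).continuousAt
  have h' := hcont.tendsto.eventually h
  filter_upwards [h, h'] with z h1 h2 f hf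
  have k1 := h1 ⟨f, hf⟩
  have k2 := h2 ⟨f, hf⟩
  rw [Real.dist_eq] at k1 k2
  have k3 : f (z.1, z.2) - f (y₀, z.2) = (f (y₀, t) - f (y₀, z.2)) - (f (y₀, t) - f z) := by ring
  rw [k3]
  refine (abs_sub _ _).trans ?_
  have k4 : |f (y₀, t) - f (y₀, z.2)| < ε / 2 := k2
  have k5 : |f (y₀, t) - f z| < ε / 2 := k1
  linarith

/-- the sections for one parameter are equicontinuous -/
lemma section_equi {F : Set (Y × (Fin n → ℝ) → ℝ)}
    (hF : Equicontinuous ((↑) : F → Y × (Fin n → ℝ) → ℝ)) (y : Y) :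
    Equicontinuous ((↑) : ({h : (Fin n → ℝ) → ℝ | ∃ f ∈ F, h = fun t => f (y, t)} :
      Set ((Fin n → ℝ) → ℝ)) → (Fin n → ℝ) → ℝ) := by
  intro t
  rw [Metric.equicontinuousAt_iff_right]
  intro η hη
  have h := Metric.equicontinuousAt_iff_right.1 (hF (y, t)) η hη
  have hcont : ContinuousAt (fun s : Fin n → ℝ => (y, s)) t :=
    (continuous_const.prodMk continuous_id).continuousAt
  filter_upwards [hcont.tendsto.eventually h] with s hs i
  obtain ⟨i, f, hf, rfl⟩ := i
  exact hs ⟨f, hf⟩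

end

/-- part (1): arbitrary data in a compact space -/
theorem six (g : ℕ) (Y : Type) [TopologicalSpace Y] [CompactSpace Y]
    (F : Set (Y × (Fin (g + 1) → ℝ) → ℝ))
    (hF : Equicontinuous ((↑) : F → Y × (Fin (g + 1) → ℝ) → ℝ)) (D : ℕ) {ε : ℝ} (hε : 0 < ε) :
    ∃ C : ℕ, ∀ (K : Type) [Field K] [NumberField K], Module.finrank ℚ K ≤ D →
      ∀ (J : Type) (θ : J → ℕ → ℝ) (S : Finset J), Family θ S → ∃ x₀ : ℕ, ∀ x ≥ x₀,
      ∀ y : (p : ℕ) → (𝓞 K →+* ZMod p) → Y,
      ∃ T : Finset (Fin (g + 1) → J), T.card ≤ C * S.card ^ g ∧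
        ∀ j : Fin (g + 1) → J, (∀ i, j i ∈ S) → j ∉ T → ∀ f ∈ F,
          |meanK K x (fun p v => f (y p v, fun i => θ (j i) p))
            - meanK K x (fun p v => ∫ t, f (y p v, t) ∂(stPi (g + 1)))| ≤ ε := by
  classical
  obtain ⟨Ys, hYs⟩ := isCompact_univ.elim_nhds_subcover
    (fun y₀ : Y => {y | ∀ t ∈ (Set.univ.pi fun _ : Fin (g + 1) => Set.Icc (0 : ℝ) Real.pi),
      ∀ f ∈ F, |f (y, t) - f (y₀, t)| ≤ ε / 4}) fun y₀ _ => near hF y₀ (by positivity)
  obtain ⟨-, hYs⟩ := hYs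
  have hex : ∀ y : Y, ∃ k ∈ Ys, ∀ t ∈ (Set.univ.pi fun _ : Fin (g + 1) =>
      Set.Icc (0 : ℝ) Real.pi), ∀ f ∈ F, |f (y, t) - f (k, t)| ≤ ε / 4 := by
    intro y
    have := hYs (Set.mem_univ y)
    rw [Set.mem_iUnion₂] at this
    obtain ⟨k, hk, h⟩ := this
    exact ⟨k, hk, h⟩
  choose c hc1 hc2 using hex
  have hm : (0 : ℝ) < 2 * (Ys.card + 1) := by positivity
  have h3 := fun k : Y => three g {h : (Fin (g + 1) → ℝ) → ℝ | ∃ f ∈ F, h = fun t => f (k, t)}
    (section_equi hF k) D 1 (ε := ε / (2 * (Ys.card + 1))) (by positivity)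
  choose C hC using h3
  refine ⟨∑ k ∈ Ys, C k, fun K _ _ hK J θ S hS => ?_⟩
  have h4 := fun k : Y => hC k K hK J θ S hS
  choose x₀ hx₀ using h4
  refine ⟨Ys.sup x₀, fun x hx y => ?_⟩
  have h5 : ∀ k : Y, k ∈ Ys → ∃ T : Finset (Fin (g + 1) → J), T.card ≤ C k * S.card ^ g ∧
      ∀ j : Fin (g + 1) → J, (∀ i, j i ∈ S) → j ∉ T →
        ∀ f ∈ {h : (Fin (g + 1) → ℝ) → ℝ | ∃ f ∈ F, h = fun t => f (k, t)},
          |meanK K x (fun p v => (if c (y p v) = k then (1 : ℝ) else 0) *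
              f fun i => θ (j i) p)
            - meanK K x (fun p v => if c (y p v) = k then (1 : ℝ) else 0) *
              ∫ t, f t ∂(stPi (g + 1))| ≤ ε / (2 * (Ys.card + 1)) := by
    intro k hk
    refine hx₀ k x ((Finset.le_sup (f := x₀) hk).trans hx) _ fun p v => ?_
    split_ifs
    · simp
    · simp
  choose! T hT1 hT2 using h5
  refine ⟨Ys.biUnion T, ?_, ?_⟩
  · refine Finset.card_biUnion_le.trans ?_
    rw [Finset.sum_mul]
    exact Finset.sum_le_sum fun k hk => hT1 k hk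
  · intro j hj hjT f hf
    have hfc : Continuous f := hF.continuous ⟨f, hf⟩
    have hsec : ∀ z : Y, Continuous fun t => f (z, t) := fun z =>
      hfc.comp (continuous_const.prodMk continuous_id)
    have hcube : ∀ p, (fun i => θ (j i) p) ∈ (Set.univ.pi fun _ : Fin (g + 1) =>
        Set.Icc (0 : ℝ) Real.pi) := fun p i _ => hS.1 (j i) p
    -- the first difference
    have k1 : |meanK K x (fun p v => f (y p v, fun i => θ (j i) p)
        - f (c (y p v), fun i => θ (j i) p))| ≤ ε / 4 :=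
      meanK_abs_le x (by positivity) fun p v => hc2 (y p v) _ (hcube p) f hf
    -- the third difference
    have k3 : |meanK K x (fun p v => ∫ t, f (y p v, t) ∂(stPi (g + 1))
        - ∫ t, f (c (y p v), t) ∂(stPi (g + 1)))| ≤ ε / 4 := by
      refine meanK_abs_le x (by positivity) fun p v => ?_
      rw [← integral_sub (integrable_pi (hsec _)) (integrable_pi (hsec _))]
      have := norm_integral_le_of_norm_le_const (μ := stPi (g + 1))
        (f := fun t => f (y p v, t) - f (c (y p v), t)) (C := ε / 4) (by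
          filter_upwards [ae_mem_pi (g + 1)] with t ht
          exact hc2 (y p v) t (fun i _ => ht i) f hf)
      simpa using this
    -- the second difference
    have e1 : meanK K x (fun p v => f (c (y p v), fun i => θ (j i) p)) =
        ∑ k ∈ Ys, meanK K x (fun p v => (if c (y p v) = k then (1 : ℝ) else 0) *
              f (k, fun i => θ (j i) p)) := by
      rw [← meanK_sum]
      congr 1
      funext p v
      simp only [ite_mul, one_mul, zero_mul]
      rw [Finset.sum_ite_eq, if_pos (hc1 _)]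
    have e2 : meanK K x (fun p v => ∫ t, f (c (y p v), t) ∂(stPi (g + 1))) =
        ∑ k ∈ Ys, meanK K x (fun p v => if c (y p v) = k then (1 : ℝ) else 0) *
              ∫ t, f (k, t) ∂(stPi (g + 1)) := by
      simp only [← meanK_mul]
      rw [← meanK_sum]
      congr 1
      funext p v
      simp only [ite_mul, one_mul, zero_mul]
      rw [Finset.sum_ite_eq, if_pos (hc1 _)]
    have k2 : |meanK K x (fun p v => f (c (y p v), fun i => θ (j i) p)) -
        meanK K x (fun p v => ∫ t, f (c (y p v), t) ∂(stPi (g + 1)))| ≤ ε / 2 := by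
      rw [e1, e2, ← Finset.sum_sub_distrib]
      refine (Finset.abs_sum_le_sum_abs _ _).trans ?_
      have : ∀ k ∈ Ys, |meanK K x (fun p v => (if c (y p v) = k then (1 : ℝ) else 0) *
              f (k, fun i => θ (j i) p)) -
            meanK K x (fun p v => if c (y p v) = k then (1 : ℝ) else 0) *
              ∫ t, f (k, t) ∂(stPi (g + 1))| ≤ ε / (2 * (Ys.card + 1)) := by
        intro k hk
        refine hT2 k hk j hj (fun h => hjT ?_) (fun t => f (k, t)) ⟨f, hf, rfl⟩
        rw [Finset.mem_biUnion]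
        exact ⟨k, hk, h⟩
      refine (Finset.sum_le_sum this).trans ?_
      rw [Finset.sum_const, nsmul_eq_mul]
      have h0 : (0 : ℝ) ≤ Ys.card := by positivity
      rw [mul_div_assoc', div_le_div_iff₀ hm (by norm_num)]
      nlinarith
    rw [meanK_sub] at k1 k3
    have k4 := abs_le.1 k1
    have k5 := abs_le.1 k2
    have k6 := abs_le.1 k3
    rw [abs_le]
    constructor <;> linarith

/-- part (2): most scales -/
theorem seven (g : ℕ) (Y : Type) [TopologicalSpace Y] [CompactSpace Y]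
    (F : Set (Y × (Fin (g + 1) → ℝ) → ℝ))
    (hF : Equicontinuous ((↑) : F → Y × (Fin (g + 1) → ℝ) → ℝ)) (D : ℕ) {ε : ℝ} (hε : 0 < ε) :
    ∃ C : ℕ, ∀ (K : Type) [Field K] [NumberField K], Module.finrank ℚ K ≤ D →
      ∀ (J : Type) (θ : J → ℕ → ℝ) (S : Finset J), Family θ S →
      ∀ y : (p : ℕ) → (𝓞 K →+* ZMod p) → Y,
      ∀ h : ℕ → ℕ, Tendsto h atTop atTop → ∀ κ : ℝ, 0 < κ →
      ∃ T : Finset (Fin (g + 1) → J), (T.card : ℝ) * κ ≤ C * S.card ^ g ∧
        ∀ j : Fin (g + 1) → J, (∀ i, j i ∈ S) → j ∉ T → Often κ fun k => ∀ f ∈ F,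
          |meanK K (h k) (fun p v => f (y p v, fun i => θ (j i) p))
            - meanK K (h k) (fun p v => ∫ t, f (y p v, t) ∂(stPi (g + 1)))| ≤ ε := by
  classical
  obtain ⟨C, hC⟩ := six g Y F hF D hε
  refine ⟨C, fun K _ _ hK J θ S hS y h hh κ hκ => ?_⟩
  obtain ⟨x₀, hx₀⟩ := hC K hK J θ S hS
  obtain ⟨k₀, hk₀⟩ := eventually_atTop.1 (hh.eventually_ge_atTop x₀)
  obtain ⟨T, hT1, hT2⟩ := often (Fintype.piFinset fun _ : Fin (g + 1) => S)
    (fun j k => ∀ f ∈ F, |meanK K (h k) (fun p v => f (y p v, fun i => θ (j i) p))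
            - meanK K (h k) (fun p v => ∫ t, f (y p v, t) ∂(stPi (g + 1)))| ≤ ε)
    (C * S.card ^ g) (by positivity) k₀
    (fun k hk => by
      obtain ⟨B, hB1, hB2⟩ := hx₀ (h k) (hk₀ k hk) y
      exact ⟨B, by exact_mod_cast hB1, fun j hj hjB => hB2 j (Fintype.mem_piFinset.1 hj) hjB⟩) hκ
  exact ⟨T, hT1, fun j hj hjT => hT2 j (Fintype.mem_piFinset.2 hj) hjT⟩

end Pool.Agent.J4.H34.PST
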