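import Pool.Agent.W263.BSD.Defs

/-!
# Angles of Frobenius of elliptic curves over `ℚ` and the Sato-Tate measure

`Pool.Agent.W263.BSD.pointCount a b p` (starting library) is the number of the pairs
`(x, y) ∈ (ℤ/p)²` with `y² = x³ + a x + b`.
-/

set_option autoImplicit false

namespace Pool.Agent.J4.H34.PST

open MeasureTheory Filter Topology NumberField
open Pool.Agent.W263.BSD

/-- The angle `θ_p ∈ [0, π]` of the elliptic curve `y² = x³ + a x + b`, `e = (a, b)`, at the prime `p`:
`2 √p cos θ_p = a_p = p - #{(x, y) ∈ (ℤ/p)² : y² = x³ + a x + b}`. (`|a_p| ≤ 2 √p` if `p` does not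
divide `2 (4 a³ + 27 b²)`.) So `θ_p` is the conjugacy class of `SU(2)` given by the Frobenius at `p`. -/
noncomputable def angle (e : ℤ × ℤ) (p : ℕ) : ℝ :=
  Real.arccos (((p : ℝ) - pointCount e.1 e.2 p) / (2 * √p))

/-- The mean value of `φ p` over the primes `p ≤ x`. -/
noncomputable def avg (x : ℕ) (φ : ℕ → ℝ) : ℝ :=
  (∑ p ∈ (Finset.range (x + 1)).filter Nat.Prime, φ p) /
    ((Finset.range (x + 1)).filter Nat.Prime).card

/-- The Sato-Tate measure `(2 / π) sin² θ dθ` on `[0, π]`, the image of the Haar measure of `SU(2)`. -/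
noncomputable def st : Measure ℝ :=
  (volume.restrict (Set.Icc 0 Real.pi)).withDensity
    fun t => ENNReal.ofReal (2 / Real.pi * Real.sin t ^ 2)

/-- The product of `n` copies of the Sato-Tate measure, a probability measure on `[0, π]^n`: the image
of the Haar measure of `SU(2)^n`. -/
noncomputable abbrev stPi (n : ℕ) : Measure (Fin n → ℝ) := Measure.pi fun _ => st

/-- The mean value of `w` over the primes of degree one of `K` with norm at most `x`. Here a prime of
degree one of `K` with norm `p` is given by the ring homomorphism `v : 𝓞 K → ℤ/p` of which it is the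
kernel, and `w p v` is the value of `w` at this prime. -/
noncomputable def meanK (K : Type) [Field K] [NumberField K] (x : ℕ)
    (w : (p : ℕ) → (𝓞 K →+* ZMod p) → ℝ) : ℝ :=
  (∑ p ∈ (Finset.range (x + 1)).filter Nat.Prime, ∑ᶠ v, w p v) /
    ∑ p ∈ (Finset.range (x + 1)).filter Nat.Prime, (Nat.card (𝓞 K →+* ZMod p) : ℝ)

/-- The proportion of the set `V` among the primes of degree one of `K` with norm at most `x`. -/
noncomputable def propK (K : Type) [Field K] [NumberField K] (x : ℕ)
    (V : (p : ℕ) → Set (𝓞 K →+* ZMod p)) : ℝ :=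
  meanK K x fun p => (V p).indicator fun _ => 1

/-- `P x` is true for at least `(1 - κ) (X + 1)` of the `X + 1` numbers `x ≤ X`, for infinitely many
`X`: the set of the `x` with `P x` has upper density at least `1 - κ`. -/
def Often (κ : ℝ) (P : ℕ → Prop) : Prop :=
  ∃ᶠ X : ℕ in atTop, (1 - κ) * (X + 1) ≤ (({x : ℕ | x ≤ X ∧ P x} : Set ℕ).ncard : ℝ)

/-- The functions `θ, θ'` on the primes, with values in `[0, π]`, are independent and Sato-Tate
distributed. For the angles of two elliptic curves over `ℚ` without complex multiplication which are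
not isogenous over `ℚ̄`, or of two newforms with trivial character and real coefficients without
complex multiplication which are not twists of each other, this is a theorem (the Sato-Tate law for
the product, with the group `SU(2) × SU(2)`). -/
def PairLaw (θ θ' : ℕ → ℝ) : Prop :=
  ∀ f : ℝ × ℝ → ℝ, Continuous f →
    Tendsto (fun x => avg x fun p => f (θ p, θ' p)) atTop (𝓝 (∫ t, ∫ t', f (t, t') ∂st ∂st))

/-- `S` is a finite set of angle functions `θ e : p ↦ θ e p ∈ [0, π]`, and the Sato-Tate law holds
for any two different ones of them. -/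
def Family {J : Type} (θ : J → ℕ → ℝ) (S : Finset J) : Prop :=
  (∀ e p, θ e p ∈ Set.Icc 0 Real.pi) ∧ ∀ e ∈ S, ∀ e' ∈ S, e ≠ e' → PairLaw (θ e) (θ e')

end Pool.Agent.J4.H34.PST
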