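import Pool.Agent.J4.H34.PST.Three

set_option autoImplicit false

namespace Pool.Agent.J4.H34.PST

open MeasureTheory Filter Topology NumberField

/-- if at most `N` of the elements are bad at every large scale, then few elements are bad for more
than `κ` of the scales -/
lemma often {Y : Type} [DecidableEq Y] (T₀ : Finset Y) (good : Y → ℕ → Prop) (N : ℝ) (hN : 0 ≤ N)
    (x₀ : ℕ) (h : ∀ x ≥ x₀, ∃ B : Finset Y, (B.card : ℝ) ≤ N ∧ ∀ j ∈ T₀, j ∉ B → good j x)
    {κ : ℝ} (hκ : 0 < κ) :
    ∃ T : Finset Y, (T.card : ℝ) * κ ≤ N ∧ ∀ j ∈ T₀, j ∉ T → Often κ (good j) := by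
  classical
  have hOften : ∀ j, Often κ (good j) ↔ ∃ᶠ X : ℕ in atTop, (1 - κ) * (X + 1) ≤
      (((Finset.range (X + 1)).filter fun x => good j x).card : ℝ) := by
    intro j
    unfold Often
    have : ∀ X : ℕ, ({x : ℕ | x ≤ X ∧ good j x} : Set ℕ).ncard =
        ((Finset.range (X + 1)).filter fun x => good j x).card := by
      intro X
      rw [← Set.ncard_coe_finset]
      congr 1
      ext x
      simp [Nat.lt_succ_iff]
    simp only [this]
  set T : Finset Y := T₀.filter fun j => ¬ Often κ (good j) with hT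
  refine ⟨T, ?_, ?_⟩
  swap
  · intro j hj hjT
    by_contra hcon
    exact hjT (Finset.mem_filter.2 ⟨hj, hcon⟩)
  -- at most `N` bad elements at every scale
  have hbad : ∀ x ≥ x₀, ((T.filter fun j => ¬ good j x).card : ℝ) ≤ N := by
    intro x hx
    obtain ⟨B, hB1, hB2⟩ := h x hx
    refine le_trans ?_ hB1
    exact_mod_cast Finset.card_le_card fun j hj => by
      rw [Finset.mem_filter, hT, Finset.mem_filter] at hj
      by_contra hcon
      exact hj.2 (hB2 j hj.1.1 hcon)
  -- the elements of `T` are bad for more than `κ (X + 1)` scales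
  have hev : ∀ᶠ X : ℕ in atTop, ∀ j ∈ T,
      κ * ((X : ℝ) + 1) ≤ (((Finset.range (X + 1)).filter fun x => ¬ good j x).card : ℝ) := by
    rw [Filter.eventually_all_finset]
    intro j hj
    rw [hT, Finset.mem_filter, hOften, not_frequently] at hj
    filter_upwards [hj.2] with X hX
    push Not at hX
    have h1 := Finset.card_filter_add_card_filter_not (s := Finset.range (X + 1))
      (fun x => good j x)
    rw [Finset.card_range] at h1
    have h2 : (((Finset.range (X + 1)).filter fun x => good j x).card : ℝ) +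
        (((Finset.range (X + 1)).filter fun x => ¬ good j x).card : ℝ) = (X : ℝ) + 1 := by
      exact_mod_cast h1
    linarith
  have hmain : ∀ᶠ X : ℕ in atTop, (T.card : ℝ) * (κ * ((X : ℝ) + 1)) ≤
      x₀ * T.card + ((X : ℝ) + 1) * N := by
    filter_upwards [hev] with X hX
    have h1 : (T.card : ℝ) * (κ * ((X : ℝ) + 1)) ≤
        ∑ j ∈ T, (((Finset.range (X + 1)).filter fun x => ¬ good j x).card : ℝ) := by
      rw [← nsmul_eq_mul, ← Finset.sum_const]
      exact Finset.sum_le_sum hX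
    have h2 : ∑ j ∈ T, (((Finset.range (X + 1)).filter fun x => ¬ good j x).card : ℝ)
        = ∑ x ∈ Finset.range (X + 1), ((T.filter fun j => ¬ good j x).card : ℝ) := by
      simp only [Finset.card_filter, Nat.cast_sum]
      rw [Finset.sum_comm]
    rw [h2] at h1
    refine h1.trans ?_
    have h3 : ∀ x ∈ Finset.range (X + 1), ((T.filter fun j => ¬ good j x).card : ℝ)
        ≤ (if x < x₀ then (T.card : ℝ) else 0) + N := by
      intro x _
      split_ifs with hlt
      · have : ((T.filter fun j => ¬ good j x).card : ℝ) ≤ T.card := by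
          exact_mod_cast Finset.card_filter_le _ _
        linarith
      · have := hbad x (not_lt.1 hlt)
        linarith
    refine (Finset.sum_le_sum h3).trans ?_
    rw [Finset.sum_add_distrib, Finset.sum_const, Finset.card_range, nsmul_eq_mul]
    push_cast
    apply add_le_add_left
    rw [← Finset.sum_filter, Finset.sum_const, nsmul_eq_mul]
    apply mul_le_mul_of_nonneg_right _ (by positivity)
    have h5 : ((Finset.range (X + 1)).filter fun x => x < x₀).card ≤ x₀ := by
      calc _ ≤ (Finset.range x₀).card := Finset.card_le_card fun x hx => by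
            rw [Finset.mem_filter] at hx
            exact Finset.mem_range.2 hx.2
        _ = x₀ := Finset.card_range _
    exact_mod_cast h5
  -- let `X` tend to infinity
  apply le_of_forall_pos_le_add
  intro δ hδ
  have h6 : ∀ᶠ X : ℕ in atTop, (x₀ : ℝ) * T.card / δ ≤ (X : ℝ) + 1 := by
    filter_upwards [(tendsto_natCast_atTop_atTop (R := ℝ)).eventually_ge_atTop
      ((x₀ : ℝ) * T.card / δ)] with X hX
    linarith
  obtain ⟨X, hX1, hX2⟩ := (hmain.and h6).exists
  have hXpos : (0 : ℝ) < (X : ℝ) + 1 := by positivity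
  rw [div_le_iff₀ hδ] at hX2
  have h7 : ((T.card : ℝ) * κ) * ((X : ℝ) + 1) ≤ (N + δ) * ((X : ℝ) + 1) := by
    nlinarith
  exact le_of_mul_le_mul_right h7 hXpos

/-- part (2): most scales -/
theorem four (g : ℕ) (A : Set ((Fin (g + 1) → ℝ) → ℝ))
    (hA : Equicontinuous ((↑) : A → (Fin (g + 1) → ℝ) → ℝ)) (D : ℕ) (d : ℝ) {ε : ℝ}
    (hε : 0 < ε) :
    ∃ C : ℕ, ∀ (K : Type) [Field K] [NumberField K], Module.finrank ℚ K ≤ D →
      ∀ (J : Type) (θ : J → ℕ → ℝ) (S : Finset J), Family θ S →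
      ∀ w : (p : ℕ) → (𝓞 K →+* ZMod p) → ℝ, (∀ p v, |w p v| ≤ d) →
      ∀ h : ℕ → ℕ, Tendsto h atTop atTop → ∀ κ : ℝ, 0 < κ →
      ∃ T : Finset (Fin (g + 1) → J), (T.card : ℝ) * κ ≤ C * S.card ^ g ∧
        ∀ j : Fin (g + 1) → J, (∀ i, j i ∈ S) → j ∉ T → Often κ fun k => ∀ f ∈ A,
          |meanK K (h k) (fun p v => w p v * f fun i => θ (j i) p)
            - meanK K (h k) w * ∫ t, f t ∂(stPi (g + 1))| ≤ ε := by
  classical
  obtain ⟨C, hC⟩ := three g A hA D d hε
  refine ⟨C, fun K _ _ hK J θ S hS w hw h hh κ hκ => ?_⟩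
  obtain ⟨x₀, hx₀⟩ := hC K hK J θ S hS
  obtain ⟨k₀, hk₀⟩ := eventually_atTop.1 (hh.eventually_ge_atTop x₀)
  obtain ⟨T, hT1, hT2⟩ := often (Fintype.piFinset fun _ : Fin (g + 1) => S)
    (fun j k => ∀ f ∈ A, |meanK K (h k) (fun p v => w p v * f fun i => θ (j i) p)
            - meanK K (h k) w * ∫ t, f t ∂(stPi (g + 1))| ≤ ε) (C * S.card ^ g) (by positivity) k₀
    (fun k hk => by
      obtain ⟨B, hB1, hB2⟩ := hx₀ (h k) (hk₀ k hk) w hw
      exact ⟨B, by exact_mod_cast hB1, fun j hj hjB => hB2 j (Fintype.mem_piFinset.1 hj) hjB⟩) hκ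
  exact ⟨T, hT1, fun j hj hjT => hT2 j (Fintype.mem_piFinset.2 hj) hjT⟩

lemma exists_minorant {n : ℕ} {U : Set (Fin n → ℝ)} (hU : IsOpen U) {c : ℝ}
    (hc : c < (stPi n).real U) :
    ∃ f : (Fin n → ℝ) → ℝ, Continuous f ∧ (∀ t, f t ≤ U.indicator (fun _ => 1) t) ∧
      c < ∫ t, f t ∂(stPi n) := by
  rcases lt_or_ge c 0 with h0 | h0
  · refine ⟨fun _ => 0, continuous_const, fun t => Set.indicator_nonneg (fun _ _ => zero_le_one) t,
      by simpa using h0⟩
  · have h1 : ENNReal.ofReal c < stPi n U := by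
      rw [ENNReal.ofReal_lt_iff_lt_toReal h0 (measure_ne_top _ _)]
      exact hc
    obtain ⟨F, hFU, hF, hcF⟩ := hU.exists_lt_isClosed h1
    obtain ⟨f, hf0, hf1, hf⟩ := exists_continuous_zero_one_of_isClosed hU.isClosed_compl hF
      (Set.disjoint_left.2 fun t ht htF => ht (hFU htF))
    refine ⟨f, f.continuous, ?_, ?_⟩
    · intro t
      by_cases ht : t ∈ U
      · rw [Set.indicator_of_mem ht]
        exact (hf t).2
      · rw [Set.indicator_of_notMem ht]
        exact (hf0 ht).le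
    · have h2 : c < (stPi n).real F := by
        rw [ENNReal.ofReal_lt_iff_lt_toReal h0 (measure_ne_top _ _)] at hcF
        exact hcF
      refine h2.trans_le ?_
      have h3 : ∫ t, F.indicator (fun _ => (1 : ℝ)) t ∂(stPi n) = (stPi n).real F := by
        rw [integral_indicator hF.measurableSet]
        simp
      rw [← h3]
      apply integral_mono
      · exact (integrable_const _).indicator hF.measurableSet
      · exact integrable_pi f.continuous
      · intro t
        by_cases ht : t ∈ F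
        · simp only [Set.indicator_of_mem ht]
          exact (hf1 ht).ge
        · simp only [Set.indicator_of_notMem ht]
          exact (hf t).1

lemma Often.mono {κ : ℝ} {P Q : ℕ → Prop} (h : ∀ x, P x → Q x) (hP : Often κ P) : Often κ Q := by
  unfold Often at *
  refine hP.mono fun X hX => hX.trans ?_
  have : ({x : ℕ | x ≤ X ∧ P x} : Set ℕ).ncard ≤ ({x : ℕ | x ≤ X ∧ Q x} : Set ℕ).ncard :=
    Set.ncard_le_ncard (fun x hx => ⟨hx.1, h x hx.2⟩)
      ((Set.finite_Iic X).subset fun x hx => hx.1)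
  exact_mod_cast this

/-- part (3): open sets, sets of primes of `K` -/
theorem five (g : ℕ) (U : Set (Fin (g + 1) → ℝ)) (hU : IsOpen U) (D : ℕ) {ε : ℝ} (hε : 0 < ε) :
    ∃ C : ℕ, ∀ (K : Type) [Field K] [NumberField K], Module.finrank ℚ K ≤ D →
      ∀ (J : Type) (θ : J → ℕ → ℝ) (S : Finset J), Family θ S →
      ∀ V : (p : ℕ) → Set (𝓞 K →+* ZMod p),
      ∀ h : ℕ → ℕ, Tendsto h atTop atTop → ∀ κ : ℝ, 0 < κ →
      ∃ T : Finset (Fin (g + 1) → J), (T.card : ℝ) * κ ≤ C * S.card ^ g ∧
        ∀ j : Fin (g + 1) → J, (∀ i, j i ∈ S) → j ∉ T → Often κ fun k =>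
          (stPi (g + 1)).real U * propK K (h k) V - ε ≤
            propK K (h k) fun p => {v ∈ V p | (fun i => θ (j i) p) ∈ U} := by
  classical
  obtain ⟨f, hf, hfU, hfc⟩ := exists_minorant hU (c := (stPi (g + 1)).real U - ε / 2)
    (by linarith)
  have hA : Equicontinuous ((↑) : ({f} : Set ((Fin (g + 1) → ℝ) → ℝ)) →
      (Fin (g + 1) → ℝ) → ℝ) := by
    intro s
    rw [Metric.equicontinuousAt_iff]
    intro η hη
    obtain ⟨δ, hδ, h⟩ := Metric.continuousAt_iff.1 (hf.continuousAt (x := s)) η hη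
    refine ⟨δ, hδ, fun t ht i => ?_⟩
    obtain ⟨i, hi⟩ := i
    rw [Set.mem_singleton_iff] at hi
    subst hi
    rw [dist_comm]
    exact h ht
  obtain ⟨C, hC⟩ := four g {f} hA D 1 (ε := ε / 2) (by positivity)
  refine ⟨C, fun K _ _ hK J θ S hS V h hh κ hκ => ?_⟩
  obtain ⟨T, hT1, hT2⟩ := hC K hK J θ S hS (fun p => (V p).indicator fun _ => 1) (fun p v => by
    by_cases h : v ∈ V p
    · rw [Set.indicator_of_mem h]; simp
    · rw [Set.indicator_of_notMem h]; simp) h hh κ hκ
  refine ⟨T, hT1, fun j hj hjT => (hT2 j hj hjT).mono fun k hx => ?_⟩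
  have h1 := hx f rfl
  set x := h k with hxk
  have h2 : meanK K x (fun p v => (V p).indicator (fun _ => 1) v * f fun i => θ (j i) p) ≤
      propK K x fun p => {v ∈ V p | (fun i => θ (j i) p) ∈ U} := by
    apply meanK_mono
    intro p v
    by_cases hv : v ∈ V p
    · rw [Set.indicator_of_mem hv, one_mul]
      refine (hfU _).trans ?_
      by_cases hu : (fun i => θ (j i) p) ∈ U
      · rw [Set.indicator_of_mem hu, Set.indicator_of_mem]
        exact ⟨hv, hu⟩
      · rw [Set.indicator_of_notMem hu]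
        exact Set.indicator_nonneg (fun _ _ => zero_le_one) _
    · rw [Set.indicator_of_notMem hv, zero_mul]
      exact Set.indicator_nonneg (fun _ _ => zero_le_one) _
  have h3 := (abs_le.1 h1).1
  have h4 : 0 ≤ propK K x V := propK_nonneg x V
  have h5 : propK K x V ≤ 1 := propK_le_one x V
  have h6 : meanK K x (fun p => (V p).indicator fun _ => 1) = propK K x V := rfl
  rw [h6] at h3
  have h7 : ((stPi (g + 1)).real U - ε / 2) * propK K x V ≤
      propK K x V * ∫ t, f t ∂(stPi (g + 1)) := by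
    rw [mul_comm]
    exact mul_le_mul_of_nonneg_left hfc.le h4
  nlinarith

/-- part (4): every tuple -/
theorem variance {J : Type} (θ : J → ℕ → ℝ) (S : Finset J) (hS : Family θ S) (hcard : 2 ≤ S.card) (φ : ℝ → ℝ)
    (hφ : Continuous φ) :
    Tendsto (fun x => avg x fun p => ((∑ e ∈ S, φ (θ e p)) / S.card - ∫ t, φ t ∂st) ^ 2)
      atTop (𝓝 ((∫ t, φ t ^ 2 ∂st - (∫ t, φ t ∂st) ^ 2) / S.card)) := by
  classical
  set m : ℝ := ∫ t, φ t ∂st with hm
  set n : ℝ := (S.card : ℝ) with hn
  have hn0 : n ≠ 0 := by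
    rw [hn]
    have : (2 : ℝ) ≤ S.card := by exact_mod_cast hcard
    positivity
  set V : ℝ := ∫ t, φ t ^ 2 ∂st - m ^ 2 with hV
  -- the correlations
  have h1 : ∀ e ∈ S, ∀ e' ∈ S, Tendsto
      (fun x => avg x fun p => (φ (θ e p) - m) * (φ (θ e' p) - m)) atTop
      (𝓝 (if e = e' then V else 0)) := by
    intro e he e' he'
    have i1 : Integrable φ st := integrable_of_continuous hφ
    have i2 : Integrable (fun t => φ t ^ 2) st := integrable_of_continuous (hφ.pow 2)
    have z : ∫ t, (φ t - m) ∂st = 0 := by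
      rw [integral_sub i1 (integrable_const _)]
      simp [hm]
    by_cases hee : e = e'
    · subst hee
      rw [if_pos rfl]
      obtain ⟨e'', he'', hne⟩ : ∃ e'' ∈ S, e'' ≠ e := by
        have : 0 < (S.erase e).card := by
          rw [Finset.card_erase_of_mem he]; omega
        obtain ⟨a, ha⟩ := Finset.card_pos.1 this
        rw [Finset.mem_erase] at ha
        exact ⟨a, ha.2, ha.1⟩
      have h2 := hS.2 e he e'' he'' hne.symm (fun q => (φ q.1 - m) * (φ q.1 - m)) (by fun_prop)
      convert h2 using 2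
      simp only [integral_const, probReal_univ, one_smul]
      have : ∀ t, (φ t - m) * (φ t - m) = φ t ^ 2 - 2 * m * φ t + m ^ 2 := fun t => by ring
      simp only [this]
      have i3 : Integrable (fun t => 2 * m * φ t) st := i1.const_mul _
      have i4 : Integrable (fun t => φ t ^ 2 - 2 * m * φ t) st := i2.sub i3
      have k1 : ∫ t, (φ t ^ 2 - 2 * m * φ t + m ^ 2) ∂st
          = ∫ t, (φ t ^ 2 - 2 * m * φ t) ∂st + ∫ _t : ℝ, m ^ 2 ∂st :=
        integral_add i4 (integrable_const _)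
      have k2 : ∫ t, (φ t ^ 2 - 2 * m * φ t) ∂st = ∫ t, φ t ^ 2 ∂st - ∫ t, 2 * m * φ t ∂st :=
        integral_sub i2 i3
      rw [k1, k2, integral_const_mul, ← hm]
      simp only [integral_const, probReal_univ, one_smul, hV]
      ring
    · rw [if_neg hee]
      have h2 := hS.2 e he e' he' hee (fun q => (φ q.1 - m) * (φ q.2 - m)) (by fun_prop)
      convert h2 using 2
      simp only [integral_const_mul, z, mul_zero, integral_zero]
  have h2 : Tendsto (fun x => ∑ e ∈ S, ∑ e' ∈ S, n⁻¹ ^ 2 *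
      avg x fun p => (φ (θ e p) - m) * (φ (θ e' p) - m)) atTop
      (𝓝 (∑ e ∈ S, ∑ e' ∈ S, n⁻¹ ^ 2 * (if e = e' then V else 0))) :=
    tendsto_finsetSum _ fun e he => tendsto_finsetSum _ fun e' he' =>
      (h1 e he e' he').const_mul _
  have h3 : ∑ e ∈ S, ∑ e' ∈ S, n⁻¹ ^ 2 * (if e = e' then V else 0) = V / n := by
    have : ∀ e ∈ S, ∑ e' ∈ S, n⁻¹ ^ 2 * (if e = e' then V else 0) = n⁻¹ ^ 2 * V := by
      intro e he
      rw [← Finset.mul_sum, Finset.sum_ite_eq, if_pos he]
    rw [Finset.sum_congr rfl this, Finset.sum_const, nsmul_eq_mul, ← hn]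
    field_simp
  rw [h3] at h2
  refine h2.congr fun x => ?_
  have h4 : (fun p => ((∑ e ∈ S, φ (θ e p)) / n - m) ^ 2) = fun p =>
      ∑ e ∈ S, ∑ e' ∈ S, n⁻¹ ^ 2 * ((φ (θ e p) - m) * (φ (θ e' p) - m)) := by
    funext p
    have h5 : (∑ e ∈ S, φ (θ e p)) / n - m = n⁻¹ * ∑ e ∈ S, (φ (θ e p) - m) := by
      rw [Finset.sum_sub_distrib, Finset.sum_const, nsmul_eq_mul, ← hn]
      field_simp
    rw [h5, mul_pow, sq (∑ e ∈ S, (φ (θ e p) - m)), Finset.sum_mul_sum, Finset.mul_sum]
    apply Finset.sum_congr rfl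
    intro e _
    rw [Finset.mul_sum]
  rw [h4, avg_sum]
  apply Finset.sum_congr rfl
  intro e _
  rw [avg_sum]
  apply Finset.sum_congr rfl
  intro e' _
  rw [avg_mul_left]

end Pool.Agent.J4.H34.PST
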