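import Pool.Agent.J4.H34.PST.Bes

set_option autoImplicit false

namespace Pool.Agent.J4.H34.PST

open MeasureTheory Filter Topology NumberField

lemma comp_equi {X X' : Type} [TopologicalSpace X] [TopologicalSpace X'] {F : Set (X → ℝ)}
    (hF : Equicontinuous ((↑) : F → X → ℝ)) {c : X' → X} (hc : Continuous c) :
    Equicontinuous ((↑) : ({h : X' → ℝ | ∃ f ∈ F, h = fun q => f (c q)} :
      Set (X' → ℝ)) → X' → ℝ) := by
  intro t
  rw [Metric.equicontinuousAt_iff_right]
  intro η hη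
  have h := Metric.equicontinuousAt_iff_right.1 (hF (c t)) η hη
  filter_upwards [hc.continuousAt.tendsto.eventually h] with s hs i
  obtain ⟨i, f, hf, rfl⟩ := i
  exact hs ⟨f, hf⟩

lemma integral_one {f : ℝ → ℝ} (hf : Continuous f) :
    ∫ t, f (t 0) ∂(stPi 1) = ∫ t, f t ∂st := by
  have h := integral_pi_succ (g := 0) (f := fun t => f (t 0)) (hf.comp (continuous_apply 0))
  rw [h]
  simp only [Fin.cons_zero]
  simp

/-- part (3): one curve of an infinite family -/
theorem nine (Y : Type) [TopologicalSpace Y] [CompactSpace Y]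
    (F : Set (Y × ℝ → ℝ)) (hF : Equicontinuous ((↑) : F → Y × ℝ → ℝ)) (D : ℕ) {ε : ℝ}
    (hε : 0 < ε) :
    ∃ C : ℕ, ∀ (K : Type) [Field K] [NumberField K], Module.finrank ℚ K ≤ D →
      ∀ (J : Type) (θ : J → ℕ → ℝ), (∀ S : Finset J, Family θ S) →
      ∀ y : (p : ℕ) → (𝓞 K →+* ZMod p) → Y,
      ∀ h : ℕ → ℕ, Tendsto h atTop atTop → ∀ κ : ℝ, 0 < κ →
      ∃ T : Finset J, (T.card : ℝ) * κ ≤ C ∧
        ∀ e ∉ T, Often κ fun k => ∀ f ∈ F,
          |meanK K (h k) (fun p v => f (y p v, θ e p))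
            - meanK K (h k) (fun p v => ∫ t, f (y p v, t) ∂st)| ≤ ε := by
  classical
  have hc : Continuous fun q : Y × (Fin 1 → ℝ) => (q.1, q.2 0) :=
    continuous_fst.prodMk ((continuous_apply 0).comp continuous_snd)
  obtain ⟨C, hC⟩ := seven 0 Y _ (comp_equi hF hc) D hε
  refine ⟨C, fun K _ _ hK J θ hS y h hh κ hκ => ?_⟩
  set P : J → ℕ → Prop := fun e k => ∀ f ∈ F,
          |meanK K (h k) (fun p v => f (y p v, θ e p))
            - meanK K (h k) (fun p v => ∫ t, f (y p v, t) ∂st)| ≤ ε with hP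
  have key : ∀ S : Finset J, (∀ e ∈ S, ¬ Often κ (P e)) → (S.card : ℝ) * κ ≤ C := by
    intro S hbad
    obtain ⟨T, hT1, hT2⟩ := hC K hK J θ S (hS S) y h hh κ hκ
    rw [pow_zero, mul_one] at hT1
    refine le_trans ?_ hT1
    apply mul_le_mul_of_nonneg_right _ hκ.le
    have hinj : Function.Injective fun (e : J) (_ : Fin 1) => e := fun a b h => congrFun h 0
    rw [← Finset.card_image_of_injective S hinj]
    have hsub : S.image (fun (e : J) (_ : Fin 1) => e) ⊆ T := by
      intro j hj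
      obtain ⟨e, he, rfl⟩ := Finset.mem_image.1 hj
      by_contra hcon
      apply hbad e he
      refine (hT2 (fun _ => e) (fun _ => he) hcon).mono fun x hx f hf => ?_
      have hfc : Continuous f := hF.continuous ⟨f, hf⟩
      have h1 := hx (fun q => f (q.1, q.2 0)) ⟨f, hf, rfl⟩
      have h2 : ∀ z : Y, ∫ t : Fin 1 → ℝ, f (z, t 0) ∂(stPi 1) = ∫ t, f (z, t) ∂st := fun z =>
        integral_one (f := fun t => f (z, t)) (hfc.comp (continuous_const.prodMk continuous_id))
      simp only [h2] at h1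
      exact h1
    exact_mod_cast Finset.card_le_card hsub
  have hfin : {e : J | ¬ Often κ (P e)}.Finite := by
    by_contra hinf
    obtain ⟨S, hS1, hS2⟩ := Set.Infinite.exists_subset_card_eq (s := {e : J | ¬ Often κ (P e)})
      hinf (⌊(C : ℝ) / κ⌋₊ + 1)
    have h1 := key S fun e he => hS1 he
    rw [hS2] at h1
    have h2 := Nat.lt_floor_add_one ((C : ℝ) / κ)
    rw [div_lt_iff₀ hκ] at h2
    push_cast at h1
    linarith
  refine ⟨hfin.toFinset, key _ fun e he => (hfin.mem_toFinset.1 he), fun e he => ?_⟩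
  by_contra hcon
  exact he (hfin.mem_toFinset.2 hcon)

end Pool.Agent.J4.H34.PST
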