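import Pool.Agent.J4.H34.PST.Basic

set_option autoImplicit false

namespace Pool.Agent.J4.H34.PST

open MeasureTheory Filter Topology

lemma angle_mem (e : ℤ × ℤ) (p : ℕ) : angle e p ∈ Set.Icc 0 Real.pi :=
  ⟨Real.arccos_nonneg _, Real.arccos_le_pi _⟩

lemma st_univ : st Set.univ = 1 := by
  unfold st
  rw [withDensity_apply _ MeasurableSet.univ, Measure.restrict_univ]
  have hint : IntegrableOn (fun t : ℝ => 2 / Real.pi * Real.sin t ^ 2) (Set.Icc 0 Real.pi) :=
    (by fun_prop : Continuous fun t : ℝ => 2 / Real.pi * Real.sin t ^ 2).continuousOn.integrableOn_Icc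
  rw [← ofReal_integral_eq_lintegral_ofReal hint (Eventually.of_forall fun t => by positivity)]
  rw [integral_Icc_eq_integral_Ioc, ← intervalIntegral.integral_of_le Real.pi_pos.le,
    intervalIntegral.integral_const_mul, integral_sin_sq]
  simp only [Real.sin_zero, Real.sin_pi, zero_mul, sub_zero]
  have : 2 / Real.pi * ((0 + Real.pi) / 2) = 1 := by
    field_simp
    ring
  rw [this]
  simp

instance : IsProbabilityMeasure st := ⟨st_univ⟩

lemma ae_mem : ∀ᵐ t ∂st, t ∈ Set.Icc 0 Real.pi := by
  have h : ∀ᵐ t ∂(volume.restrict (Set.Icc (0 : ℝ) Real.pi)), t ∈ Set.Icc 0 Real.pi :=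
    ae_restrict_mem measurableSet_Icc
  exact (withDensity_absolutelyContinuous _ _).ae_le h

lemma integrable_of_continuous {f : ℝ → ℝ} (hf : Continuous f) : Integrable f st := by
  obtain ⟨M, hM⟩ := (isCompact_Icc (a := (0 : ℝ)) (b := Real.pi)).exists_bound_of_continuousOn
    hf.continuousOn
  refine Integrable.of_bound hf.aestronglyMeasurable M ?_
  filter_upwards [ae_mem] with t ht
  exact hM t ht

lemma abs_integral_le {f : ℝ → ℝ} {c : ℝ} (h : ∀ t ∈ Set.Icc 0 Real.pi, |f t| ≤ c) :
    |∫ t, f t ∂st| ≤ c := by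
  have := norm_integral_le_of_norm_le_const (μ := st) (f := f) (C := c) (by
    filter_upwards [ae_mem] with t ht
    exact h t ht)
  simpa using this

end Pool.Agent.J4.H34.PST
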