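import Pool.Agent.J4.H34.PST.Two

set_option autoImplicit false

namespace Pool.Agent.J4.H34.PST

open MeasureTheory Filter Topology BoundedContinuousFunction

/-- an equicontinuous family is bounded on the cube after subtracting constants -/
lemma equi_bound {n : ℕ} {A : Set ((Fin n → ℝ) → ℝ)}
    (hA : Equicontinuous ((↑) : A → (Fin n → ℝ) → ℝ)) :
    ∃ B : ℝ, ∀ f ∈ A, ∀ t : Fin n → ℝ, (∀ i, t i ∈ Set.Icc 0 Real.pi) → |f t - f 0| ≤ B := by
  have hloc : ∀ s : Fin n → ℝ, ∀ᶠ t in 𝓝 s, ∀ f ∈ A, |f t - f s| < 1 := by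
    intro s
    have h := Metric.equicontinuousAt_iff.1 (hA s) 1 one_pos
    obtain ⟨δ, hδ, h⟩ := h
    filter_upwards [Metric.ball_mem_nhds s hδ] with t ht f hf
    have := h t ht ⟨f, hf⟩
    rw [dist_comm, Real.dist_eq] at this
    exact this
  set G : Set (Fin n → ℝ) := {t | ∃ B : ℝ, ∀ f ∈ A, |f t - f 0| ≤ B} with hG
  have hopen : IsOpen G := by
    rw [isOpen_iff_mem_nhds]
    rintro s ⟨B, hB⟩
    filter_upwards [hloc s] with t ht
    refine ⟨B + 1, fun f hf => ?_⟩
    have h1 := hB f hf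
    have h2 := (ht f hf).le
    calc |f t - f 0| ≤ |f t - f s| + |f s - f 0| := abs_sub_le _ _ _
      _ ≤ B + 1 := by linarith
  have hclosed : IsClosed G := by
    rw [← isOpen_compl_iff, isOpen_iff_mem_nhds]
    intro s hs
    filter_upwards [hloc s] with t ht
    rintro ⟨B, hB⟩
    apply hs
    refine ⟨B + 1, fun f hf => ?_⟩
    have h1 := hB f hf
    have h2 := (ht f hf).le
    calc |f s - f 0| ≤ |f s - f t| + |f t - f 0| := abs_sub_le _ _ _
      _ ≤ B + 1 := by rw [abs_sub_comm (f s)]; linarith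
  have huniv : G = Set.univ :=
    IsClopen.eq_univ ⟨hclosed, hopen⟩ ⟨0, 0, fun f _ => by simp⟩
  have hc : IsCompact (Set.univ.pi fun _ : Fin n => Set.Icc (0 : ℝ) Real.pi) :=
    isCompact_univ_pi fun _ => isCompact_Icc
  have key : ∃ B : ℝ, ∀ f ∈ A, ∀ t ∈ (Set.univ.pi fun _ : Fin n => Set.Icc (0 : ℝ) Real.pi),
      |f t - f 0| ≤ B := by
    refine hc.induction_on (p := fun s => ∃ B : ℝ, ∀ f ∈ A, ∀ t ∈ s, |f t - f 0| ≤ B)
      ?_ ?_ ?_ ?_
    · exact ⟨0, fun f _ t ht => absurd ht (Set.notMem_empty t)⟩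
    · rintro s t hst ⟨B, hB⟩
      exact ⟨B, fun f hf u hu => hB f hf u (hst hu)⟩
    · rintro s t ⟨B, hB⟩ ⟨B', hB'⟩
      refine ⟨max B B', fun f hf u hu => ?_⟩
      rcases hu with hu | hu
      · exact (hB f hf u hu).trans (le_max_left _ _)
      · exact (hB' f hf u hu).trans (le_max_right _ _)
    · intro s _
      obtain ⟨B, hB⟩ : s ∈ G := huniv ▸ Set.mem_univ s
      refine ⟨_, mem_nhdsWithin_of_mem_nhds (hloc s), B + 1, fun f hf t ht => ?_⟩
      have h1 := hB f hf
      have h2 := (ht f hf).le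
      calc |f t - f 0| ≤ |f t - f s| + |f s - f 0| := abs_sub_le _ _ _
        _ ≤ B + 1 := by linarith
  obtain ⟨B, hB⟩ := key
  exact ⟨B, fun f hf t ht => hB f hf t fun i _ => ht i⟩

/-- a finite net for an equicontinuous family on the cube, up to constants -/
lemma net {n : ℕ} {A : Set ((Fin n → ℝ) → ℝ)}
    (hA : Equicontinuous ((↑) : A → (Fin n → ℝ) → ℝ)) {ε : ℝ} (hε : 0 < ε) :
    ∃ F : Finset ((Fin n → ℝ) → ℝ), (∀ h ∈ F, Continuous h) ∧
      ∀ f ∈ A, ∃ h ∈ F, ∀ t : Fin n → ℝ, (∀ i, t i ∈ Set.Icc 0 Real.pi) →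
        |f t - f 0 - h t| ≤ ε := by
  classical
  obtain ⟨B, hB⟩ := equi_bound hA
  let X : Type := Fin n → Set.Icc (0 : ℝ) Real.pi
  let c : X → (Fin n → ℝ) := fun x i => (x i : ℝ)
  have hc : Continuous c := by
    refine continuous_pi fun i => ?_
    exact continuous_subtype_val.comp (continuous_apply i)
  let 𝒜 : Set (X →ᵇ ℝ) := {F | ∃ f ∈ A, ∀ x, F x = f (c x) - f 0}
  have hcpt : IsCompact (closure 𝒜) := by
    refine BoundedContinuousFunction.arzela_ascoli (Set.Icc (-B) B) isCompact_Icc 𝒜 ?_ ?_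
    · rintro F x ⟨f, hf, hF⟩
      rw [hF x]
      exact abs_le.1 (hB f hf (c x) fun i => (x i).2)
    · intro x₀
      rw [Metric.equicontinuousAt_iff]
      intro η hη
      obtain ⟨δ, hδ, h⟩ := Metric.equicontinuousAt_iff.1 (hA (c x₀)) η hη
      obtain ⟨δ', hδ', h'⟩ := Metric.continuousAt_iff.1 (hc.continuousAt (x := x₀)) δ hδ
      refine ⟨δ', hδ', fun x hx F => ?_⟩
      obtain ⟨F, f, hf, hF⟩ := F
      have h1 := h (c x) (h' hx) ⟨f, hf⟩
      show dist (F x₀) (F x) < η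
      rw [hF, hF, Real.dist_eq]
      rw [Real.dist_eq] at h1
      have : f (c x₀) - f 0 - (f (c x) - f 0) = f (c x₀) - f (c x) := by ring
      rw [this]
      exact h1
  obtain ⟨T, hTfin, hT⟩ := Metric.totallyBounded_iff.1 hcpt.totallyBounded ε hε
  let pr : (Fin n → ℝ) → X := fun s i => Set.projIcc 0 Real.pi Real.pi_pos.le (s i)
  have hpr : Continuous pr := by
    refine continuous_pi fun i => ?_
    exact continuous_projIcc.comp (continuous_apply i)
  refine ⟨hTfin.toFinset.image fun y => fun s => y (pr s), ?_, ?_⟩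
  · intro h hh
    obtain ⟨y, _, rfl⟩ := Finset.mem_image.1 hh
    exact y.continuous.comp hpr
  · intro f hf
    have hfc : Continuous f := hA.continuous ⟨f, hf⟩
    let F : X →ᵇ ℝ := BoundedContinuousFunction.mkOfCompact
      ⟨fun x => f (c x) - f 0, (hfc.comp hc).sub continuous_const⟩
    have hF : F ∈ 𝒜 := ⟨f, hf, fun x => rfl⟩
    have h1 := hT (subset_closure hF)
    rw [Set.mem_iUnion₂] at h1
    obtain ⟨y, hyT, hy⟩ := h1
    refine ⟨fun s => y (pr s), Finset.mem_image.2 ⟨y, hTfin.mem_toFinset.2 hyT, rfl⟩, ?_⟩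
    intro t ht
    have h2 : c (pr t) = t := by
      funext i
      show ((Set.projIcc 0 Real.pi Real.pi_pos.le (t i) : Set.Icc (0 : ℝ) Real.pi) : ℝ) = t i
      rw [Set.projIcc_of_mem _ (ht i)]
    have h3 := (BoundedContinuousFunction.dist_coe_le_dist (f := F) (g := y) (pr t)).trans
      (le_of_lt hy)
    rw [Real.dist_eq] at h3
    have h4 : F (pr t) = f t - f 0 := by
      show f (c (pr t)) - f 0 = _
      rw [h2]
    rw [h4] at h3
    exact h3

/-- arbitrary weights, an equicontinuous family of test functions at once -/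
theorem twoU (g : ℕ) (A : Set ((Fin (g + 1) → ℝ) → ℝ))
    (hA : Equicontinuous ((↑) : A → (Fin (g + 1) → ℝ) → ℝ)) (d : ℝ) {ε : ℝ}
    (hε : 0 < ε) :
    ∃ C : ℕ, ∀ (J : Type) (θ : J → ℕ → ℝ) (S : Finset J), Family θ S → ∃ x₀ : ℕ, ∀ x ≥ x₀,
      ∀ w : ℕ → ℝ, (∀ p, |w p| ≤ d) →
      ∃ T : Finset (Fin (g + 1) → J), T.card ≤ C * S.card ^ g ∧
        ∀ j : Fin (g + 1) → J, (∀ i, j i ∈ S) → j ∉ T → ∀ f ∈ A,
          |avg x (fun p => w p * f fun i => θ (j i) p)
            - avg x w * ∫ t, f t ∂(stPi (g + 1))| ≤ ε := by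
  classical
  -- we may assume `d > 0`
  set d' : ℝ := max d 1 with hd'
  have hd'0 : 0 < d' := lt_of_lt_of_le one_pos (le_max_right _ _)
  obtain ⟨F, hFc, hF⟩ := net hA (ε := ε / (4 * d')) (by positivity)
  have h2 : ∀ h : F, ∃ C : ℕ, ∀ (J : Type) (θ : J → ℕ → ℝ) (S : Finset J), Family θ S →
      ∃ x₀ : ℕ, ∀ x ≥ x₀, ∀ w : ℕ → ℝ, (∀ p, |w p| ≤ d) →
      ((Fintype.piFinset fun _ : Fin (g + 1) => S).filter fun j : Fin (g + 1) → J =>
        ε / 2 < |avg x (fun p => w p * h.1 fun i => θ (j i) p)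
          - avg x w * ∫ t, h.1 t ∂(stPi (g + 1))|).card ≤ C * S.card ^ g := fun h =>
    two g h.1 (hFc h.1 h.2) d (by positivity)
  choose C hC using h2
  refine ⟨∑ h : F, C h, fun J θ S hS => ?_⟩
  have h3 : ∀ h : F, ∃ x₀ : ℕ, ∀ x ≥ x₀, ∀ w : ℕ → ℝ, (∀ p, |w p| ≤ d) →
      ((Fintype.piFinset fun _ : Fin (g + 1) => S).filter fun j : Fin (g + 1) → J =>
        ε / 2 < |avg x (fun p => w p * h.1 fun i => θ (j i) p)
          - avg x w * ∫ t, h.1 t ∂(stPi (g + 1))|).card ≤ C h * S.card ^ g := fun h =>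
    hC h J θ S hS
  choose x₀ hx₀ using h3
  refine ⟨Finset.univ.sup x₀, fun x hx w hw => ?_⟩
  refine ⟨Finset.univ.biUnion fun h : F =>
    ((Fintype.piFinset fun _ : Fin (g + 1) => S).filter fun j : Fin (g + 1) → J =>
        ε / 2 < |avg x (fun p => w p * h.1 fun i => θ (j i) p)
          - avg x w * ∫ t, h.1 t ∂(stPi (g + 1))|), ?_, ?_⟩
  · refine Finset.card_biUnion_le.trans ?_
    rw [Finset.sum_mul]
    refine Finset.sum_le_sum fun h _ => ?_
    exact hx₀ h x ((Finset.le_sup (f := x₀) (Finset.mem_univ h)).trans hx) w hw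
  · intro j hj hjT f hf
    obtain ⟨h, hh, hfh⟩ := hF f hf
    have k0 : |avg x (fun p => w p * h fun i => θ (j i) p)
          - avg x w * ∫ t, h t ∂(stPi (g + 1))| ≤ ε / 2 := by
      by_contra hcon
      push Not at hcon
      apply hjT
      rw [Finset.mem_biUnion]
      refine ⟨⟨h, hh⟩, Finset.mem_univ _, ?_⟩
      rw [Finset.mem_filter]
      exact ⟨Fintype.mem_piFinset.2 hj, hcon⟩
    have hfc : Continuous f := hA.continuous ⟨f, hf⟩
    -- the difference of `f - f 0 - h`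
    have k1 : |avg x (fun p => w p * (f (fun i => θ (j i) p) - f 0 - h fun i => θ (j i) p))|
        ≤ d' * (ε / (4 * d')) := by
      apply abs_avg_le _ (by positivity)
      intro p
      rw [abs_mul]
      exact mul_le_mul ((hw p).trans (le_max_left _ _)) (hfh _ fun i => hS.1 (j i) p)
        (abs_nonneg _) hd'0.le
    have k2 : avg x (fun p => w p * (f (fun i => θ (j i) p) - f 0 - h fun i => θ (j i) p)) =
        avg x (fun p => w p * f fun i => θ (j i) p) - avg x w * f 0 -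
          avg x (fun p => w p * h fun i => θ (j i) p) := by
      rw [← avg_mul_right, ← avg_sub, ← avg_sub]
      congr 1
      funext p
      ring
    have k3 : |∫ t, (f t - f 0 - h t) ∂(stPi (g + 1))| ≤ ε / (4 * d') := by
      have := norm_integral_le_of_norm_le_const (μ := stPi (g + 1))
        (f := fun t => f t - f 0 - h t) (C := ε / (4 * d')) (by
          filter_upwards [ae_mem_pi (g + 1)] with t ht
          exact hfh t ht)
      simpa using this
    have k4 : ∫ t, (f t - f 0 - h t) ∂(stPi (g + 1)) =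
        ∫ t, f t ∂(stPi (g + 1)) - f 0 - ∫ t, h t ∂(stPi (g + 1)) := by
      have i1 := integrable_pi hfc
      have i2 := integrable_pi (hFc h hh)
      have i3 : Integrable (fun t => f t - f 0) (stPi (g + 1)) := i1.sub (integrable_const _)
      rw [integral_sub i3 i2, integral_sub i1 (integrable_const _)]
      simp
    have k5 : |avg x w| ≤ d' := abs_avg_le _ hd'0.le fun p => (hw p).trans (le_max_left _ _)
    have k6 : |avg x w * ∫ t, (f t - f 0 - h t) ∂(stPi (g + 1))| ≤ d' * (ε / (4 * d')) := by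
      rw [abs_mul]
      exact mul_le_mul k5 k3 (abs_nonneg _) hd'0.le
    have k7 : d' * (ε / (4 * d')) = ε / 4 := by field_simp
    rw [k7] at k1 k6
    rw [k2] at k1
    rw [k4] at k6
    set a := avg x (fun p => w p * f fun i => θ (j i) p)
    set b := avg x (fun p => w p * h fun i => θ (j i) p)
    set If := ∫ t, f t ∂(stPi (g + 1))
    set Ih := ∫ t, h t ∂(stPi (g + 1))
    have k8 : a - avg x w * If = (a - avg x w * f 0 - b) - avg x w * (If - f 0 - Ih) +
      (b - avg x w * Ih) := by ring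
    have k9 := abs_le.1 k0
    have k10 := abs_le.1 k1
    have k11 := abs_le.1 k6
    rw [k8, abs_le]
    constructor <;> linarith

end Pool.Agent.J4.H34.PST
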