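import Pool.Agent.J4.H34.PST.Meas

set_option autoImplicit false

namespace Pool.Agent.J4.H34.PST

open MeasureTheory Filter Topology
open scoped unitInterval

/-- Bernstein polynomials on `[0, π]` -/
noncomputable def lam (n : ℕ) (k : Fin (n + 1)) (t : ℝ) : ℝ :=
  (n.choose k : ℝ) * (t / Real.pi) ^ (k : ℕ) * (1 - t / Real.pi) ^ (n - k)

lemma lam_continuous (n : ℕ) (k : Fin (n + 1)) : Continuous (lam n k) := by
  unfold lam
  fun_prop

/-- the point of the unit interval -/
noncomputable def un {t : ℝ} (ht : t ∈ Set.Icc 0 Real.pi) : I :=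
  ⟨t / Real.pi, div_nonneg ht.1 Real.pi_pos.le, (div_le_one Real.pi_pos).2 ht.2⟩

lemma lam_eq {n : ℕ} (k : Fin (n + 1)) {t : ℝ} (ht : t ∈ Set.Icc 0 Real.pi) :
    lam n k t = bernstein n k (un ht) := by
  rw [bernstein_apply]
  rfl

lemma lam_nonneg {n : ℕ} (k : Fin (n + 1)) {t : ℝ} (ht : t ∈ Set.Icc 0 Real.pi) :
    0 ≤ lam n k t := by
  rw [lam_eq k ht]
  exact bernstein_nonneg

lemma lam_sum {n : ℕ} {t : ℝ} (ht : t ∈ Set.Icc 0 Real.pi) :
    ∑ k : Fin (n + 1), lam n k t = 1 := by
  rw [← bernstein.probability n (un ht)]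
  exact Finset.sum_congr rfl fun k _ => lam_eq k ht

lemma lam_le_one {n : ℕ} (k : Fin (n + 1)) {t : ℝ} (ht : t ∈ Set.Icc 0 Real.pi) :
    lam n k t ≤ 1 := by
  rw [← lam_sum (n := n) ht]
  exact Finset.single_le_sum (f := fun k => lam n k t) (fun k _ => lam_nonneg k ht)
    (Finset.mem_univ k)

lemma approx {X : Type} [TopologicalSpace X] [CompactSpace X] (f : X × ℝ → ℝ)
    (hf : Continuous f) {ε : ℝ} (hε : 0 < ε) :
    ∃ n : ℕ, ∃ F : Fin (n + 1) → X → ℝ, (∃ M : ℝ, 0 ≤ M ∧ ∀ k y, |F k y| ≤ M) ∧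
      ∀ y : X, ∀ t ∈ Set.Icc 0 Real.pi, |f (y, t) - ∑ k, F k y * lam n k t| ≤ ε := by
  set G : C(I, C(X, ℝ)) := ContinuousMap.curry
    ⟨fun q : I × X => f (q.2, Real.pi * (q.1 : ℝ)), by fun_prop⟩ with hG
  have h1 := bernsteinApproximation_uniform G
  rw [Metric.tendsto_atTop] at h1
  obtain ⟨n, hn⟩ := h1 ε hε
  have h2 := hn n le_rfl
  refine ⟨n, fun k => G (bernstein.z k), ⟨∑ k : Fin (n + 1), ‖G (bernstein.z k)‖,
    Finset.sum_nonneg fun _ _ => norm_nonneg _, ?_⟩, ?_⟩
  · intro k y
    refine ((G (bernstein.z k)).norm_coe_le_norm y).trans ?_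
    exact Finset.single_le_sum (f := fun k => ‖G (bernstein.z k)‖) (fun k _ => norm_nonneg _)
      (Finset.mem_univ k)
  · intro y t ht
    have h3 : dist (bernsteinApproximation n G (un ht)) (G (un ht)) < ε :=
      (ContinuousMap.dist_apply_le_dist _).trans_lt h2
    have h4 : dist ((bernsteinApproximation n G (un ht)) y) ((G (un ht)) y) < ε :=
      (ContinuousMap.dist_apply_le_dist _).trans_lt h3
    have h5 : (G (un ht)) y = f (y, t) := by
      show f (y, Real.pi * (t / Real.pi)) = f (y, t)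
      congr 2
      field_simp
    have h6 : (bernsteinApproximation n G (un ht)) y
        = ∑ k, (G (bernstein.z k)) y * lam n k t := by
      rw [bernsteinApproximation.apply, ContinuousMap.sum_apply]
      apply Finset.sum_congr rfl
      intro k _
      rw [ContinuousMap.smul_apply, smul_eq_mul, lam_eq k ht, mul_comm]
    rw [h5, h6, dist_comm, Real.dist_eq] at h4
    exact h4.le

/-- the functions of one angle with mean value zero: few correlations with any bounded function -/
lemma core {ψ : ℝ → ℝ} (hψ : Continuous ψ) (h1 : ∀ t ∈ Set.Icc 0 Real.pi, |ψ t| ≤ 1)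
    (h0 : ∫ t, ψ t ∂st = 0) {J : Type} {θ : J → ℕ → ℝ} {S : Finset J} (hS : Family θ S) :
    ∃ x₀ : ℕ, ∀ x ≥ x₀, ∀ (F : ℕ → ℝ) (M δ : ℝ), 0 ≤ M → 0 < δ → (∀ p, |F p| ≤ M) →
      ((S.filter fun e => δ < |avg x fun p => F p * ψ (θ e p)|).card : ℝ)
        ≤ 2 * M ^ 2 / δ ^ 2 := by
  classical
  have h2 : ∀ e ∈ S, ∀ e' ∈ S, e ≠ e' → ∀ᶠ x in atTop,
      |avg x (fun p => ψ (θ e p) * ψ (θ e' p))| ≤ 1 / ((S.card : ℝ) + 1) := by
    intro e he e' he' hne
    have h3 := hS.2 e he e' he' hne (fun q => ψ q.1 * ψ q.2) (by fun_prop)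
    have h4 : ∫ t, ∫ t', ψ t * ψ t' ∂st ∂st = 0 := by
      simp only [integral_const_mul, h0, mul_zero, integral_zero]
    simp only [h4] at h3
    rw [Metric.tendsto_atTop] at h3
    obtain ⟨N, hN⟩ := h3 (1 / ((S.card : ℝ) + 1)) (by positivity)
    filter_upwards [eventually_ge_atTop N] with x hx
    have := hN x hx
    rw [Real.dist_eq, sub_zero] at this
    exact this.le
  have h3 : ∀ᶠ x in atTop, ∀ e ∈ S, ∀ e' ∈ S, e ≠ e' →
      |avg x (fun p => ψ (θ e p) * ψ (θ e' p))| ≤ 1 / ((S.card : ℝ) + 1) := by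
    rw [Filter.eventually_all_finset]
    intro e he
    rw [Filter.eventually_all_finset]
    intro e' he'
    by_cases hne : e = e'
    · exact Eventually.of_forall fun _ h => absurd hne h
    · filter_upwards [h2 e he e' he' hne] with x hx _
      exact hx
  obtain ⟨x₀, hx₀⟩ := eventually_atTop.1 h3
  refine ⟨x₀, fun x hx F M δ hM hδ hF => ?_⟩
  have h4 := bessel x S (fun e p => ψ (θ e p)) F hM (η := 1 / ((S.card : ℝ) + 1))
    (by positivity) hF (fun e _ p => h1 _ (hS.1 e p)) (hx₀ x hx)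
  have h5 : M ^ 2 * (1 + 1 / ((S.card : ℝ) + 1) * S.card) ≤ 2 * M ^ 2 := by
    have : 1 / ((S.card : ℝ) + 1) * S.card ≤ 1 := by
      rw [div_mul_eq_mul_div, one_mul, div_le_one (by positivity)]
      linarith
    nlinarith [sq_nonneg M]
  have h6 : ((S.filter fun e => δ < |avg x fun p => F p * ψ (θ e p)|).card : ℝ) * δ ^ 2
      ≤ ∑ e ∈ S, avg x (fun p => F p * ψ (θ e p)) ^ 2 := by
    calc ((S.filter fun e => δ < |avg x fun p => F p * ψ (θ e p)|).card : ℝ) * δ ^ 2
        = ∑ e ∈ S.filter (fun e => δ < |avg x fun p => F p * ψ (θ e p)|), δ ^ 2 := by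
          rw [Finset.sum_const, nsmul_eq_mul]
      _ ≤ ∑ e ∈ S.filter (fun e => δ < |avg x fun p => F p * ψ (θ e p)|),
            avg x (fun p => F p * ψ (θ e p)) ^ 2 := by
          apply Finset.sum_le_sum
          intro e he
          rw [Finset.mem_filter] at he
          rw [← sq_abs (avg x fun p => F p * ψ (θ e p))]
          exact pow_le_pow_left₀ hδ.le he.2.le 2
      _ ≤ _ := Finset.sum_le_sum_of_subset_of_nonneg (Finset.filter_subset _ _)
          fun _ _ _ => sq_nonneg _
  rw [le_div_iff₀ (by positivity)]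
  linarith

/-- part (1): arbitrary data -/
theorem one {X : Type} [TopologicalSpace X] [CompactSpace X] (f : X × ℝ → ℝ)
    (hf : Continuous f) {ε : ℝ} (hε : 0 < ε) :
    ∃ C : ℕ, ∀ (J : Type) (θ : J → ℕ → ℝ) (S : Finset J), Family θ S → ∃ x₀ : ℕ,
      ∀ x ≥ x₀, ∀ y : ℕ → X,
      (S.filter fun e => ε < |avg x (fun p => f (y p, θ e p)) -
        avg x (fun p => ∫ t, f (y p, t) ∂st)|).card ≤ C := by
  classical
  obtain ⟨n, F, ⟨M, hM, hF⟩, happ⟩ := approx f hf (ε := ε / 4) (by positivity)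
  set δ : ℝ := ε / (2 * (n + 1)) with hδ
  have hδpos : 0 < δ := by positivity
  set m : Fin (n + 1) → ℝ := fun k => ∫ t, lam n k t ∂st with hm
  set ψ : Fin (n + 1) → ℝ → ℝ := fun k t => lam n k t - m k with hψ
  have hm0 : ∀ k, 0 ≤ m k := fun k => integral_nonneg_of_ae (by
    filter_upwards [ae_mem] with t ht using lam_nonneg k ht)
  have hm1 : ∀ k, m k ≤ 1 := fun k => (le_abs_self _).trans (abs_integral_le fun t ht => by
    rw [abs_of_nonneg (lam_nonneg k ht)]; exact lam_le_one k ht)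
  have hψc : ∀ k, Continuous (ψ k) := fun k => (lam_continuous n k).sub continuous_const
  have hψ1 : ∀ k, ∀ t ∈ Set.Icc 0 Real.pi, |ψ k t| ≤ 1 := by
    intro k t ht
    have h1 := lam_nonneg k ht
    have h2 := lam_le_one k ht
    have h3 := hm0 k
    have h4 := hm1 k
    simp only [hψ]
    rw [abs_le]
    constructor <;> linarith
  have hψ0 : ∀ k, ∫ t, ψ k t ∂st = 0 := by
    intro k
    simp only [hψ]
    rw [integral_sub (integrable_of_continuous (lam_continuous n k)) (integrable_const _)]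
    simp [hm]
  refine ⟨(n + 1) * ⌈2 * M ^ 2 / δ ^ 2⌉₊, fun J θ S hS => ?_⟩
  choose x₀ hx₀ using fun k => core (hψc k) (hψ1 k) (hψ0 k) hS
  refine ⟨∑ k, x₀ k, fun x hx y => ?_⟩
  have hxk : ∀ k, x₀ k ≤ x := fun k =>
    (Finset.single_le_sum (f := x₀) (fun _ _ => Nat.zero_le _) (Finset.mem_univ k)).trans hx
  -- the approximation
  have key : ∀ e : J, |avg x (fun p => f (y p, θ e p)) -
      avg x (fun p => ∫ t, f (y p, t) ∂st)|
      ≤ ε / 2 + ∑ k, |avg x fun p => F k (y p) * ψ k (θ e p)| := by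
    intro e
    have a1 : |avg x (fun p => f (y p, θ e p) - ∑ k, F k (y p) * lam n k (θ e p))|
        ≤ ε / 4 := abs_avg_le x (by positivity) fun p => happ (y p) _ (hS.1 e p)
    have a2 : |avg x (fun p => ∫ t, f (y p, t) ∂st - ∑ k, F k (y p) * m k)| ≤ ε / 4 := by
      apply abs_avg_le x (by positivity)
      intro p
      have b1 : ∫ t, (f (y p, t) - ∑ k, F k (y p) * lam n k t) ∂st
          = ∫ t, f (y p, t) ∂st - ∑ k, F k (y p) * m k := by
        have c1 : Continuous fun t => f (y p, t) := by fun_prop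
        have c2 : Continuous fun t => ∑ k, F k (y p) * lam n k t :=
          continuous_finsetSum _ fun k _ => continuous_const.mul (lam_continuous n k)
        rw [integral_sub (integrable_of_continuous c1) (integrable_of_continuous c2)]
        congr 1
        have c3 : ∀ k : Fin (n + 1), Continuous fun t => F k (y p) * lam n k t :=
          fun k => continuous_const.mul (lam_continuous n k)
        have c4 := integral_finsetSum (μ := st) (Finset.univ : Finset (Fin (n + 1)))
          (f := fun k t => F k (y p) * lam n k t) fun k _ => integrable_of_continuous (c3 k)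
        rw [c4]
        simp only [integral_const_mul, hm]
      rw [← b1]
      exact abs_integral_le fun t ht => happ (y p) t ht
    have a3 : avg x (fun p => f (y p, θ e p)) - avg x (fun p => ∫ t, f (y p, t) ∂st)
        = avg x (fun p => f (y p, θ e p) - ∑ k, F k (y p) * lam n k (θ e p))
          - avg x (fun p => ∫ t, f (y p, t) ∂st - ∑ k, F k (y p) * m k)
          + ∑ k, avg x (fun p => F k (y p) * ψ k (θ e p)) := by
      rw [← avg_sum, ← avg_sub, ← avg_sub, ← avg_add]
      congr 1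
      funext p
      simp only [hψ, mul_sub, Finset.sum_sub_distrib]
      ring
    rw [a3]
    calc |avg x (fun p => f (y p, θ e p) - ∑ k, F k (y p) * lam n k (θ e p))
          - avg x (fun p => ∫ t, f (y p, t) ∂st - ∑ k, F k (y p) * m k)
          + ∑ k, avg x (fun p => F k (y p) * ψ k (θ e p))|
        ≤ |avg x (fun p => f (y p, θ e p) - ∑ k, F k (y p) * lam n k (θ e p))
          - avg x (fun p => ∫ t, f (y p, t) ∂st - ∑ k, F k (y p) * m k)|
          + |∑ k, avg x (fun p => F k (y p) * ψ k (θ e p))| := abs_add_le _ _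
      _ ≤ (ε / 4 + ε / 4) + ∑ k, |avg x fun p => F k (y p) * ψ k (θ e p)| := by
          apply add_le_add
          · exact (abs_sub _ _).trans (add_le_add a1 a2)
          · exact Finset.abs_sum_le_sum_abs _ _
      _ = _ := by ring
  have hsub : (S.filter fun e => ε < |avg x (fun p => f (y p, θ e p)) -
        avg x (fun p => ∫ t, f (y p, t) ∂st)|)
      ⊆ Finset.univ.biUnion fun k : Fin (n + 1) =>
        S.filter fun e => δ < |avg x fun p => F k (y p) * ψ k (θ e p)| := by
    intro e he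
    rw [Finset.mem_filter] at he
    rw [Finset.mem_biUnion]
    by_contra hcon
    push Not at hcon
    have h1 : ∀ k : Fin (n + 1), |avg x fun p => F k (y p) * ψ k (θ e p)| ≤ δ := by
      intro k
      by_contra hk
      push Not at hk
      exact hcon k (Finset.mem_univ k) (Finset.mem_filter.2 ⟨he.1, hk⟩)
    have h2 : ∑ k : Fin (n + 1), |avg x fun p => F k (y p) * ψ k (θ e p)| ≤ ε / 2 := by
      refine (Finset.sum_le_sum fun k _ => h1 k).trans ?_
      rw [Finset.sum_const, Finset.card_univ, Fintype.card_fin, nsmul_eq_mul, hδ]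
      push_cast
      apply le_of_eq
      field_simp
    linarith [key e, he.2]
  calc _ ≤ (Finset.univ.biUnion fun k : Fin (n + 1) =>
        S.filter fun e => δ < |avg x fun p => F k (y p) * ψ k (θ e p)|).card :=
        Finset.card_le_card hsub
    _ ≤ ∑ k : Fin (n + 1),
        (S.filter fun e => δ < |avg x fun p => F k (y p) * ψ k (θ e p)|).card :=
        Finset.card_biUnion_le
    _ ≤ ∑ _k : Fin (n + 1), ⌈2 * M ^ 2 / δ ^ 2⌉₊ := by
        apply Finset.sum_le_sum
        intro k _
        have := hx₀ k x (hxk k) (fun p => F k (y p)) M δ hM hδpos (fun p => hF k _)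
        have h7 : ((S.filter fun e => δ < |avg x fun p => F k (y p) * ψ k (θ e p)|).card : ℝ)
            ≤ (⌈2 * M ^ 2 / δ ^ 2⌉₊ : ℝ) := this.trans (Nat.le_ceil _)
        exact_mod_cast h7
    _ = _ := by
        rw [Finset.sum_const, Finset.card_univ, Fintype.card_fin, smul_eq_mul]

end Pool.Agent.J4.H34.PST
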