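import Pool.Agent.J4.H34.PST.Net
import Pool.Agent.H484R2.Pit

set_option autoImplicit false

namespace Pool.Agent.J4.H34.PST

open MeasureTheory Filter Topology NumberField

section

variable {K : Type} [Field K] [NumberField K]

/-- the sum of `w` over the primes of degree one above `p` -/
noncomputable def push (w : (p : ℕ) → (𝓞 K →+* ZMod p) → ℝ) (p : ℕ) : ℝ :=
  if p.Prime then ∑ᶠ v, w p v else 0

/-- the number of the primes of degree one above `p` -/
noncomputable def wt (K : Type) [Field K] [NumberField K] (p : ℕ) : ℝ :=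
  if p.Prime then (Nat.card (𝓞 K →+* ZMod p) : ℝ) else 0

lemma push_abs_le {w : (p : ℕ) → (𝓞 K →+* ZMod p) → ℝ} {d : ℝ} (hd : 0 ≤ d)
    (hw : ∀ p v, |w p v| ≤ d) (p : ℕ) : |push w p| ≤ Module.finrank ℚ K * d := by
  unfold push
  split_ifs with h
  · have : Fact p.Prime := ⟨h⟩
    have := Pool.Agent.H484R2.hom_finite K p
    let _ := Fintype.ofFinite (𝓞 K →+* ZMod p)
    rw [finsum_eq_sum_of_fintype]
    refine (Finset.abs_sum_le_sum_abs _ _).trans ?_
    refine (Finset.sum_le_sum fun v _ => hw p v).trans ?_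
    rw [Finset.sum_const, nsmul_eq_mul, Finset.card_univ, ← Nat.card_eq_fintype_card]
    exact mul_le_mul_of_nonneg_right (H332.PIT.hc_cast_le h) hd
  · rw [abs_zero]; positivity

lemma push_mul (w : (p : ℕ) → (𝓞 K →+* ZMod p) → ℝ) (φ : ℕ → ℝ) (p : ℕ) :
    push (fun p v => w p v * φ p) p = push w p * φ p := by
  unfold push
  split_ifs with h
  · rw [finsum_mul]
  · rw [zero_mul]

lemma avg_push (w : (p : ℕ) → (𝓞 K →+* ZMod p) → ℝ) (x : ℕ) : avg x (push w) =
    (∑ p ∈ (Finset.range (x + 1)).filter Nat.Prime, ∑ᶠ v, w p v) /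
      ((Finset.range (x + 1)).filter Nat.Prime).card := by
  rw [avg_def]
  congr 1
  apply Finset.sum_congr rfl
  intro p hp
  rw [Finset.mem_filter] at hp
  rw [push, if_pos hp.2]

lemma avg_wt (x : ℕ) : avg x (wt K) =
    (∑ p ∈ (Finset.range (x + 1)).filter Nat.Prime, (Nat.card (𝓞 K →+* ZMod p) : ℝ)) /
      ((Finset.range (x + 1)).filter Nat.Prime).card := by
  rw [avg_def]
  congr 1
  apply Finset.sum_congr rfl
  intro p hp
  rw [Finset.mem_filter] at hp
  rw [wt, if_pos hp.2]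

lemma meanK_eq (w : (p : ℕ) → (𝓞 K →+* ZMod p) → ℝ) (x : ℕ) :
    meanK K x w = avg x (push w) / avg x (wt K) := by
  rw [avg_push, avg_wt, meanK]
  rcases Nat.eq_zero_or_pos ((Finset.range (x + 1)).filter Nat.Prime).card with h | h
  · have h0 := Finset.card_eq_zero.1 h
    rw [h0]
    simp
  · have : (((Finset.range (x + 1)).filter Nat.Prime).card : ℝ) ≠ 0 := by positivity
    rw [div_div_div_cancel_right₀ this]

lemma avg_wt_tendsto : Tendsto (fun x => avg x (wt K)) atTop (𝓝 1) := by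
  have h := Pool.Agent.H484R2.pit K
  refine h.congr fun N => ?_
  rw [avg_wt, Nat.primeCounting, Nat.primeCounting', Nat.count_eq_card_filter_range]

lemma avg_wt_ge : ∀ᶠ x in atTop, (1 : ℝ) / 2 ≤ avg x (wt K) := by
  filter_upwards [(avg_wt_tendsto (K := K)).eventually (lt_mem_nhds (show (1 : ℝ) / 2 < 1 by
    norm_num))] with x hx
  exact hx.le

lemma meanK_mono (x : ℕ) {w w' : (p : ℕ) → (𝓞 K →+* ZMod p) → ℝ} (h : ∀ p v, w p v ≤ w' p v) :
    meanK K x w ≤ meanK K x w' := by
  unfold meanK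
  apply div_le_div_of_nonneg_right
  · refine Finset.sum_le_sum fun p hp => ?_
    have : Fact p.Prime := ⟨(Finset.mem_filter.1 hp).2⟩
    have := Pool.Agent.H484R2.hom_finite K p
    let _ := Fintype.ofFinite (𝓞 K →+* ZMod p)
    rw [finsum_eq_sum_of_fintype, finsum_eq_sum_of_fintype]
    exact Finset.sum_le_sum fun v _ => h p v
  · exact Finset.sum_nonneg fun p _ => Nat.cast_nonneg _

lemma meanK_zero (x : ℕ) : meanK K x (fun _ _ => 0) = 0 := by
  unfold meanK
  simp

lemma meanK_one_le (x : ℕ) : meanK K x (fun _ _ => 1) ≤ 1 := by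
  unfold meanK
  apply div_le_one_of_le₀
  · refine Finset.sum_le_sum fun p hp => ?_
    have : Fact p.Prime := ⟨(Finset.mem_filter.1 hp).2⟩
    have := Pool.Agent.H484R2.hom_finite K p
    let _ := Fintype.ofFinite (𝓞 K →+* ZMod p)
    rw [finsum_eq_sum_of_fintype, Finset.sum_const, nsmul_eq_mul, Finset.card_univ,
      ← Nat.card_eq_fintype_card, mul_one]
  · exact Finset.sum_nonneg fun p _ => Nat.cast_nonneg _

lemma propK_nonneg (x : ℕ) (V : (p : ℕ) → Set (𝓞 K →+* ZMod p)) : 0 ≤ propK K x V := by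
  rw [← meanK_zero (K := K) x]
  exact meanK_mono x fun p v => Set.indicator_nonneg (fun _ _ => zero_le_one) v

lemma propK_le_one (x : ℕ) (V : (p : ℕ) → Set (𝓞 K →+* ZMod p)) : propK K x V ≤ 1 := by
  refine (meanK_mono x fun p v => ?_).trans (meanK_one_le (K := K) x)
  exact Set.indicator_le' (fun _ _ => le_refl _) (fun _ _ => zero_le_one) v

end

/-- part (1): number fields, weights, an equicontinuous family of test functions -/
theorem three (g : ℕ) (A : Set ((Fin (g + 1) → ℝ) → ℝ))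
    (hA : Equicontinuous ((↑) : A → (Fin (g + 1) → ℝ) → ℝ)) (D : ℕ) (d : ℝ) {ε : ℝ}
    (hε : 0 < ε) :
    ∃ C : ℕ, ∀ (K : Type) [Field K] [NumberField K], Module.finrank ℚ K ≤ D →
      ∀ (J : Type) (θ : J → ℕ → ℝ) (S : Finset J), Family θ S → ∃ x₀ : ℕ, ∀ x ≥ x₀,
      ∀ w : (p : ℕ) → (𝓞 K →+* ZMod p) → ℝ, (∀ p v, |w p v| ≤ d) →
      ∃ T : Finset (Fin (g + 1) → J), T.card ≤ C * S.card ^ g ∧
        ∀ j : Fin (g + 1) → J, (∀ i, j i ∈ S) → j ∉ T → ∀ f ∈ A,
          |meanK K x (fun p v => w p v * f fun i => θ (j i) p)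
            - meanK K x w * ∫ t, f t ∂(stPi (g + 1))| ≤ ε := by
  classical
  obtain ⟨C, hC⟩ := twoU g A hA (D * max d 0) (ε := ε / 2) (by positivity)
  refine ⟨C, fun K _ _ hK J θ S hS => ?_⟩
  obtain ⟨x₀, hx₀⟩ := hC J θ S hS
  obtain ⟨x₁, hx₁⟩ := eventually_atTop.1 (avg_wt_ge (K := K))
  refine ⟨max x₀ x₁, fun x hx w hw => ?_⟩
  obtain ⟨T, hT1, hT2⟩ := hx₀ x ((le_max_left _ _).trans hx) (push w) fun p =>
    (push_abs_le (le_max_right d 0) (fun p v => (hw p v).trans (le_max_left _ _)) p).trans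
      (mul_le_mul_of_nonneg_right (by exact_mod_cast hK) (le_max_right _ _))
  have h2 := hx₁ x ((le_max_right _ _).trans hx)
  refine ⟨T, hT1, fun j hj hjT f hf => ?_⟩
  have h3 := hT2 j hj hjT f hf
  have hpos : 0 < avg x (wt K) := by linarith
  rw [meanK_eq, meanK_eq]
  have h4 : avg x (push fun p v => w p v * f fun i => θ (j i) p) =
      avg x (fun p => push w p * f fun i => θ (j i) p) := by
    congr 1
    funext p
    exact push_mul w (fun p => f fun i => θ (j i) p) p
  have h5 : avg x (fun p => push w p * f fun i => θ (j i) p) / avg x (wt K)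
      - avg x (push w) / avg x (wt K) * ∫ t, f t ∂(stPi (g + 1)) =
      (avg x (fun p => push w p * f fun i => θ (j i) p)
        - avg x (push w) * ∫ t, f t ∂(stPi (g + 1))) / avg x (wt K) := by
    field_simp
  rw [h4, h5, abs_div, abs_of_pos hpos, div_le_iff₀ hpos]
  nlinarith

end Pool.Agent.J4.H34.PST
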