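import Pool.Agent.J4.H34.PST.One

set_option autoImplicit false

namespace Pool.Agent.J4.H34.PST

open MeasureTheory Filter Topology

lemma ae_mem_pi (g : ℕ) : ∀ᵐ t ∂(stPi g), ∀ i, t i ∈ Set.Icc 0 Real.pi := by
  have h : ∀ᶠ t in Filter.pi (fun _ : Fin g => ae st), ∀ i, t i ∈ Set.Icc 0 Real.pi := by
    rw [eventually_all]
    intro i
    exact (Filter.tendsto_eval_pi (fun _ : Fin g => ae st) i).eventually ae_mem
  exact (Measure.ae_pi_le_pi (μ := fun _ : Fin g => st)) h

lemma exists_bound {g : ℕ} {f : (Fin g → ℝ) → ℝ} (hf : Continuous f) :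
    ∃ M : ℝ, 0 ≤ M ∧ ∀ t : Fin g → ℝ, (∀ i, t i ∈ Set.Icc 0 Real.pi) → |f t| ≤ M := by
  have hc : IsCompact (Set.univ.pi fun _ : Fin g => Set.Icc (0 : ℝ) Real.pi) :=
    isCompact_univ_pi fun _ => isCompact_Icc
  obtain ⟨M, hM⟩ := hc.exists_bound_of_continuousOn hf.continuousOn
  refine ⟨max M 0, le_max_right _ _, fun t ht => ?_⟩
  exact (hM t (fun i _ => ht i)).trans (le_max_left _ _)

lemma integrable_pi {g : ℕ} {f : (Fin g → ℝ) → ℝ} (hf : Continuous f) :
    Integrable f (stPi g) := by
  obtain ⟨M, _, hM⟩ := exists_bound hf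
  refine Integrable.of_bound hf.aestronglyMeasurable M ?_
  filter_upwards [ae_mem_pi g] with t ht
  exact hM t ht

lemma continuous_cons {g : ℕ} {f : (Fin (g + 1) → ℝ) → ℝ} (hf : Continuous f) :
    Continuous fun q : (Fin g → ℝ) × ℝ => f (Fin.cons q.2 q.1) :=
  hf.comp (Continuous.finCons (A := fun _ : Fin (g + 1) => ℝ) continuous_snd continuous_fst)

lemma continuous_int {g : ℕ} {f : (Fin (g + 1) → ℝ) → ℝ} (hf : Continuous f) :
    Continuous fun y : Fin g → ℝ => ∫ t, f (Fin.cons t y) ∂st := by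
  have h1 := continuous_parametric_integral_of_continuous (μ := st)
    (f := fun (y : Fin g → ℝ) (t : ℝ) => f (Fin.cons t y)) (continuous_cons hf)
    (isCompact_Icc (a := (0 : ℝ)) (b := Real.pi))
  rwa [Measure.restrict_eq_self_of_ae_mem ae_mem] at h1

lemma integral_pi_succ {g : ℕ} {f : (Fin (g + 1) → ℝ) → ℝ} (hf : Continuous f) :
    ∫ t, f t ∂(stPi (g + 1)) = ∫ y, ∫ t, f (Fin.cons t y) ∂st ∂(stPi g) := by
  have mp := measurePreserving_piFinSuccAbove (n := g) (fun _ : Fin (g + 1) => st) 0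
  have h1 := mp.symm.integral_comp' (g := f)
  rw [← h1]
  have h2 : ∀ q : ℝ × (Fin g → ℝ),
      f ((MeasurableEquiv.piFinSuccAbove (fun _ : Fin (g + 1) => ℝ) 0).symm q)
        = f (Fin.cons q.1 q.2) := by
    intro q
    rw [MeasurableEquiv.piFinSuccAbove_symm_apply]
    simp only [Fin.insertNthEquiv, Fin.insertNth_zero, Equiv.coe_fn_mk]
    rfl
  have h3 : Integrable (fun q : ℝ × (Fin g → ℝ) => f (Fin.cons q.1 q.2))
      (st.prod (stPi g)) := by
    have := (mp.symm.integrable_comp_emb
      (MeasurableEquiv.piFinSuccAbove (fun _ : Fin (g + 1) => ℝ) 0).symm.measurableEmbedding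
      (g := f)).2 (integrable_pi hf)
    refine this.congr (Eventually.of_forall fun q => ?_)
    exact h2 q
  calc _ = ∫ q, f (Fin.cons q.1 q.2) ∂(st.prod (stPi g)) := by
        apply integral_congr_ae
        exact Eventually.of_forall fun q => h2 q
    _ = _ := integral_prod_symm _ h3

/-- part (1), the induction -/
theorem two_aux (g : ℕ) : ∀ (f : (Fin g → ℝ) → ℝ), Continuous f → ∀ d ε : ℝ, 0 < ε →
    ∃ C : ℕ, ∀ (J : Type) (θ : J → ℕ → ℝ) (S : Finset J), Family θ S → ∃ x₀ : ℕ, ∀ x ≥ x₀,
      ∀ w : ℕ → ℝ, (∀ p, |w p| ≤ d) →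
      ((Fintype.piFinset fun _ : Fin g => S).filter fun j =>
        ε < |avg x (fun p => w p * f fun i => θ (j i) p) - avg x w * ∫ t, f t ∂(stPi g)|).card
          * S.card ≤ C * S.card ^ g := by
  classical
  induction g with
  | zero =>
    intro f _ d ε hε
    refine ⟨0, fun J θ S _ => ⟨0, fun x _ w _ => ?_⟩⟩
    have h1 : ∀ j : Fin 0 → J,
        |avg x (fun p => w p * f fun i => θ (j i) p) - avg x w * ∫ t, f t ∂(stPi 0)| = 0 := by
      intro j
      have e1 : (fun p : ℕ => w p * f fun i => θ (j i) p) = fun p => w p * f default := by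
        funext p
        congr 2
        exact Subsingleton.elim _ _
      have e2 : ∫ t, f t ∂(stPi 0) = f default := by
        have : ∀ t : Fin 0 → ℝ, f t = f default := fun t => congrArg f (Subsingleton.elim _ _)
        simp only [this]
        simp
      rw [e1, avg_mul_right, e2, sub_self, abs_zero]
    have h2 : ((Fintype.piFinset fun _ : Fin 0 => S).filter fun j =>
        ε < |avg x (fun p => w p * f fun i => θ (j i) p)
          - avg x w * ∫ t, f t ∂(stPi 0)|) = ∅ := by
      rw [Finset.filter_eq_empty_iff]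
      intro j _
      rw [h1 j]
      exact not_lt.2 hε.le
    rw [h2]
    simp
  | succ g ih =>
    intro f hf d ε hε
    obtain ⟨C₁, h1⟩ := one (X := Set.Icc (-d) d × (Fin g → Set.Icc (0 : ℝ) Real.pi))
      (fun q => (q.1.1 : ℝ) *
        f (Fin.cons q.2 fun i => ((q.1.2 i : Set.Icc (0 : ℝ) Real.pi) : ℝ)))
      (by
        have h := (continuous_cons hf).comp
          (f := fun q : (Set.Icc (-d) d × (Fin g → Set.Icc (0 : ℝ) Real.pi)) × ℝ =>
            ((fun i => ((q.1.2 i : Set.Icc (0 : ℝ) Real.pi) : ℝ)), q.2)) (by fun_prop)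
        have h' : Continuous fun q : (Set.Icc (-d) d × (Fin g → Set.Icc (0 : ℝ) Real.pi)) × ℝ =>
          (q.1.1 : ℝ) := by fun_prop
        exact h'.mul h)
      (ε := ε / 2) (by positivity)
    obtain ⟨C₂, h2⟩ := ih (fun y => ∫ t, f (Fin.cons t y) ∂st) (continuous_int hf) d (ε / 2)
      (by positivity)
    refine ⟨C₁ + C₂, fun J θ S hS => ?_⟩
    obtain ⟨x₁, hx₁⟩ := h1 J θ S hS
    obtain ⟨x₂, hx₂⟩ := h2 J θ S hS
    refine ⟨max x₁ x₂, fun x hx w hw => ?_⟩
    have k1 := hx₁ x ((le_max_left _ _).trans hx)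
    have k2 := hx₂ x ((le_max_right _ _).trans hx) w hw
    set f₁ : (Fin g → ℝ) → ℝ := fun y => ∫ t, f (Fin.cons t y) ∂st with hf₁
    set A : (Fin g → J) → Finset J := fun j' => S.filter fun e =>
      ε / 2 < |avg x (fun p => w p * f (Fin.cons (θ e p) fun i => θ (j' i) p)) -
        avg x (fun p => w p * f₁ fun i => θ (j' i) p)| with hA
    have hAcard : ∀ j', (A j').card ≤ C₁ := by
      intro j'
      have := k1 fun p => (⟨w p, abs_le.1 (hw p)⟩, fun i => ⟨θ (j' i) p, hS.1 _ _⟩)
      simp only [integral_const_mul] at this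
      exact this
    set B : Finset (Fin g → J) := (Fintype.piFinset fun _ : Fin g => S).filter fun j =>
        ε / 2 < |avg x (fun p => w p * f₁ fun i => θ (j i) p)
          - avg x w * ∫ t, f₁ t ∂(stPi g)| with hB
    have hsub : ((Fintype.piFinset fun _ : Fin (g + 1) => S).filter fun j =>
        ε < |avg x (fun p => w p * f fun i => θ (j i) p)
          - avg x w * ∫ t, f t ∂(stPi (g + 1))|)
        ⊆ (((Fintype.piFinset fun _ : Fin g => S).sigma A).image
            fun q : (Σ _ : Fin g → J, J) => (Fin.cons q.2 q.1 : Fin (g + 1) → J)) ∪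
          ((B ×ˢ S).image fun q => (Fin.cons q.2 q.1 : Fin (g + 1) → J)) := by
      intro j hj
      rw [Finset.mem_filter, Fintype.mem_piFinset] at hj
      have hjS : ∀ i, j i ∈ S := hj.1
      have htail : Fin.tail j ∈ Fintype.piFinset fun _ : Fin g => S := by
        rw [Fintype.mem_piFinset]
        intro i
        exact hjS i.succ
      have hcons : (Fin.cons (j 0) (Fin.tail j) : Fin (g + 1) → J) = j := Fin.cons_self_tail j
      have e1 : ∀ p, (fun i => θ (j i) p)
          = (Fin.cons (θ (j 0) p) fun i => θ (Fin.tail j i) p : Fin (g + 1) → ℝ) := by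
        intro p
        funext i
        refine Fin.cases ?_ (fun i => ?_) i
        · rfl
        · rfl
      have e2 : ε < |avg x (fun p => w p * f (Fin.cons (θ (j 0) p)
          fun i => θ (Fin.tail j i) p)) - avg x w * ∫ t, f₁ t ∂(stPi g)| := by
        have := hj.2
        rw [integral_pi_succ hf] at this
        simp only [e1] at this
        exact this
      rw [Finset.mem_union]
      by_cases hb : ε / 2 < |avg x (fun p => w p * f₁ fun i => θ (Fin.tail j i) p) -
          avg x w * ∫ t, f₁ t ∂(stPi g)|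
      · right
        rw [Finset.mem_image]
        refine ⟨(Fin.tail j, j 0), ?_, hcons⟩
        rw [Finset.mem_product]
        exact ⟨Finset.mem_filter.2 ⟨htail, hb⟩, hjS 0⟩
      · left
        rw [Finset.mem_image]
        refine ⟨⟨Fin.tail j, j 0⟩, ?_, hcons⟩
        rw [Finset.mem_sigma]
        refine ⟨htail, Finset.mem_filter.2 ⟨hjS 0, ?_⟩⟩
        push Not at hb
        by_contra hcon
        push Not at hcon
        have h3 := abs_sub_le
          (avg x (fun p => w p * f (Fin.cons (θ (j 0) p) fun i => θ (Fin.tail j i) p)))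
          (avg x (fun p => w p * f₁ fun i => θ (Fin.tail j i) p))
          (avg x w * ∫ t, f₁ t ∂(stPi g))
        linarith
    have hcard : ((Fintype.piFinset fun _ : Fin (g + 1) => S).filter fun j =>
        ε < |avg x (fun p => w p * f fun i => θ (j i) p)
          - avg x w * ∫ t, f t ∂(stPi (g + 1))|).card
        ≤ S.card ^ g * C₁ + B.card * S.card := by
      refine (Finset.card_le_card hsub).trans ((Finset.card_union_le _ _).trans ?_)
      apply add_le_add
      · refine Finset.card_image_le.trans ?_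
        rw [Finset.card_sigma]
        refine (Finset.sum_le_card_nsmul _ _ C₁ fun j' _ => hAcard j').trans ?_
        rw [Fintype.card_piFinset, smul_eq_mul]
        simp
      · refine Finset.card_image_le.trans ?_
        rw [Finset.card_product]
    calc _ ≤ (S.card ^ g * C₁ + B.card * S.card) * S.card := Nat.mul_le_mul_right _ hcard
      _ ≤ (S.card ^ g * C₁ + C₂ * S.card ^ g) * S.card :=
          Nat.mul_le_mul_right _ (Nat.add_le_add_left k2 _)
      _ = (C₁ + C₂) * S.card ^ (g + 1) := by ring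

/-- part (1): arbitrary weights -/
theorem two (g : ℕ) (f : (Fin (g + 1) → ℝ) → ℝ) (hf : Continuous f) (d : ℝ) {ε : ℝ}
    (hε : 0 < ε) :
    ∃ C : ℕ, ∀ (J : Type) (θ : J → ℕ → ℝ) (S : Finset J), Family θ S → ∃ x₀ : ℕ, ∀ x ≥ x₀,
      ∀ w : ℕ → ℝ, (∀ p, |w p| ≤ d) →
      ((Fintype.piFinset fun _ : Fin (g + 1) => S).filter fun j =>
        ε < |avg x (fun p => w p * f fun i => θ (j i) p)
          - avg x w * ∫ t, f t ∂(stPi (g + 1))|).card ≤ C * S.card ^ g := by
  obtain ⟨C, hC⟩ := two_aux (g + 1) f hf d ε hε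
  refine ⟨C, fun J θ S hS => ?_⟩
  obtain ⟨x₀, hx₀⟩ := hC J θ S hS
  refine ⟨x₀, fun x hx w hw => ?_⟩
  have h1 := hx₀ x hx w hw
  rcases Nat.eq_zero_or_pos S.card with h0 | h0
  · have hS0 : S = ∅ := Finset.card_eq_zero.1 h0
    subst hS0
    have : (Fintype.piFinset fun _ : Fin (g + 1) => (∅ : Finset J)) = ∅ := by
      rw [Finset.eq_empty_iff_forall_notMem]
      intro j hj
      rw [Fintype.mem_piFinset] at hj
      exact absurd (hj 0) (Finset.notMem_empty _)
    rw [this]
    simp
  · rw [pow_succ, ← mul_assoc] at h1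
    exact Nat.le_of_mul_le_mul_right h1 h0

end Pool.Agent.J4.H34.PST
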